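import Mathlib

set_option autoImplicit false

/-!
# dim versus edim: common definitions

`Base G` fixes a landmark set `S`, a root `r ∈ S`, a BFS parent function `par` and an injective
index `idx` on the vertices. `NG` is the graph of non-tree edges.
-/

namespace Pool.Agent.H939R2.Edim

variable {V : Type} [Fintype V] [DecidableEq V]

/-- Landmark set, root, BFS tree and an ordering of the vertices. -/
structure Base (G : SimpleGraph V) where
  conn : G.Connected
  S : Finset V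
  r : V
  hr : r ∈ S
  idx : V → ℕ
  idx_inj : Function.Injective idx
  par : V → V
  par_root : par r = r
  par_adj : ∀ v, v ≠ r → G.Adj v (par v)
  par_lvl : ∀ v, v ≠ r → G.dist r (par v) + 1 = G.dist r v

variable {G : SimpleGraph V}

/-- The level (distance from the root). -/
noncomputable def Base.L (B : Base G) (v : V) : ℕ := G.dist B.r v

/-- The graph of non-tree edges. -/
def Base.N (B : Base G) : SimpleGraph V where
  Adj u v := G.Adj u v ∧ B.par u ≠ v ∧ B.par v ≠ u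
  symm := ⟨fun _ _ h => ⟨h.1.symm, h.2.2, h.2.1⟩⟩
  loopless := ⟨fun _ h => G.loopless.irrefl _ h.1⟩

/-- `s` distinguishes the edges `a z` and `a (par a)`. -/
def Base.Res (B : Base G) (s a z : V) : Prop :=
  min (G.dist s a) (G.dist s z) ≠ min (G.dist s a) (G.dist s (B.par a))

/-- An abstract pair of objects (two vertices or two edges) which is not resolved by the landmarks.
`W` is the set of vertices which resolve the pair, `Dx` and `Dy` are the two cones of vertices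
straight below the two tops, `k` is the level of the tops and `b s` is the distance from a landmark
`s` to the tops if `s` sees the pair from above. -/
structure Pr (B : Base G) where
  W : V → Prop
  Dx : V → Prop
  Dy : V → Prop
  k : ℕ
  b : V → ℕ
  hasSp : Prop
  spa : V
  spz : V
  hS : ∀ s ∈ B.S, ¬ W s
  c1 : ∀ u v, W u → W v → ¬ B.N.Adj u v
  c2 : ∀ u v w, W u → W v → B.N.Adj w u → B.N.Adj w v → u = v
  xorx : ∀ g, Dx g → ¬ Dy g → W g
  xory : ∀ g, Dy g → ¬ Dx g → W g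
  base : ∀ s ∈ B.S, ∀ g, (Dx g ∨ Dy g) → G.dist s g + k ≤ b s + B.L g
  downx : ∀ g c, Dx g → G.dist c g + B.L g = B.L c → Dx c
  downy : ∀ g c, Dy g → G.dist c g + B.L g = B.L c → Dy c
  /-- parents of cone vertices: either again in the cone, or a normal top, or the special top -/
  top : ∀ g, ((Dx g ∧ ¬ Dy g) ∨ (Dy g ∧ ¬ Dx g)) → g ≠ B.r ∧
    ((Dx (B.par g) ∨ Dy (B.par g)) ∨
     ((∀ s ∈ B.S, G.dist s g + k < b s + B.L g → G.dist s g ≤ G.dist s (B.par g)) ∧
      (∀ s ∈ B.S, (∀ c, (Dx c ∨ Dy c) → ¬ (G.dist s c + k < b s + B.L c)) →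
        G.dist s (B.par g) + 1 = G.dist s g)) ∨
     (hasSp ∧ g = spa))
  spN : hasSp → B.N.Adj spa spz
  spL : hasSp → B.L spz + 1 = B.L spa
  sp1 : hasSp → ∀ s ∈ B.S, G.dist s spa + k < b s + B.L spa → G.dist s spa ≤ G.dist s spz
  sp2 : hasSp → ∀ s ∈ B.S, (∀ c, (Dx c ∨ Dy c) → ¬ (G.dist s c + k < b s + B.L c)) →
    G.dist s spz + 1 = G.dist s spa
  merge : ∀ c, Dx c → Dy c → ∃ z0 x1, Dx z0 ∧ Dy z0 ∧ z0 ≠ B.r ∧ G.dist c z0 + B.L z0 = B.L c ∧
    B.N.Adj x1 z0 ∧ B.L x1 + 1 = B.L z0 ∧ (Dx x1 ∨ Dy x1) ∧ W x1 ∧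
    (Dx (B.par z0) ∨ Dy (B.par z0))
  horiz : ∀ s ∈ B.S, (∀ c, (Dx c ∨ Dy c) → ¬ (G.dist s c + k < b s + B.L c)) →
    ∀ g, ((Dx g ∧ ¬ Dy g) ∨ (Dy g ∧ ¬ Dx g)) → ∀ g', B.N.Adj g g' → B.L g' = B.L g →
      G.dist s g' = G.dist s g + 1 →
      ∃ h, G.Adj g' h ∧ ((B.L h + 1 = B.L g' ∧ G.dist s h < G.dist s g') ∨
        (B.L h = B.L g' ∧ Dx h ∧ Dy h))

end Pool.Agent.H939R2.Edim
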