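import Mathlib
import Pool.Agent.H939R2.Edim.Defs

set_option autoImplicit false
set_option linter.unusedSectionVars false

/-!
# dim versus edim: elementary facts on distances and levels
-/

namespace Pool.Agent.H939R2.Edim

variable {V : Type} [Fintype V] [DecidableEq V] {G : SimpleGraph V}

lemma exists_closer (hG : G.Connected) {s g : V} (h : s ≠ g) :
    ∃ g', G.Adj g g' ∧ G.dist s g' + 1 = G.dist s g := by
  obtain ⟨w, hw⟩ := hG.exists_walk_length_eq_dist g s
  cases w with
  | nil => exact absurd rfl h
  | @cons _ v _ hadj p =>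
    refine ⟨v, hadj, ?_⟩
    have h1 : G.dist v s ≤ p.length := SimpleGraph.dist_le p
    rw [SimpleGraph.Walk.length_cons] at hw
    have h2 : G.dist g s ≤ G.dist g v + G.dist v s := hG.dist_triangle
    have h3 : G.dist g v = 1 := SimpleGraph.dist_eq_one_iff_adj.mpr hadj
    rw [SimpleGraph.dist_comm (u := s) (v := v), SimpleGraph.dist_comm (u := s) (v := g)]
    omega

lemma dist_adj_le (hG : G.Connected) {s u v : V} (h : G.Adj u v) :
    G.dist s u ≤ G.dist s v + 1 := by
  have h2 : G.dist s u ≤ G.dist s v + G.dist v u := hG.dist_triangle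
  have h3 : G.dist v u = 1 := SimpleGraph.dist_eq_one_iff_adj.mpr h.symm
  omega

namespace Base

variable (B : Base G)

lemma L_le {u v : V} (h : G.Adj u v) : B.L u ≤ B.L v + 1 := dist_adj_le B.conn h

lemma L_root : B.L B.r = 0 := SimpleGraph.dist_self

lemma L_eq_zero {v : V} : B.L v = 0 ↔ v = B.r := by
  constructor
  · intro h
    exact ((B.conn.dist_eq_zero_iff).mp h).symm
  · rintro rfl
    exact B.L_root

lemma L_par {v : V} (h : v ≠ B.r) : B.L (B.par v) + 1 = B.L v := B.par_lvl v h

lemma L_dist (u v : V) : B.L u ≤ B.L v + G.dist v u := B.conn.dist_triangle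

lemma L_dist' (u v : V) : B.L u ≤ B.L v + G.dist u v := by
  rw [SimpleGraph.dist_comm]
  exact B.L_dist u v

lemma N_adj {u v : V} (h : B.N.Adj u v) : G.Adj u v := h.1

/-- an edge to a lower level vertex which is not the parent edge is a non-tree edge -/
lemma N_of_upper {g u : V} (h : G.Adj g u) (hl : B.L u + 1 = B.L g) (hp : u ≠ B.par g) :
    B.N.Adj g u := by
  refine ⟨h, fun e => hp e.symm, ?_⟩
  intro e
  by_cases hu : u = B.r
  · subst hu
    rw [B.par_root] at e
    subst e
    omega
  · have := B.L_par hu
    rw [e] at this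
    omega

/-- a horizontal edge is a non-tree edge -/
lemma N_of_horiz {g u : V} (h : G.Adj g u) (hl : B.L u = B.L g) : B.N.Adj g u := by
  refine ⟨h, ?_, ?_⟩
  · intro e
    by_cases hg : g = B.r
    · subst hg
      rw [B.par_root] at e
      subst e
      exact G.loopless.irrefl _ h
    · have := B.L_par hg
      rw [e] at this
      omega
  · intro e
    by_cases hu : u = B.r
    · subst hu
      rw [B.par_root] at e
      subst e
      exact G.loopless.irrefl _ h
    · have := B.L_par hu
      rw [e] at this
      omega

end Base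

end Pool.Agent.H939R2.Edim
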