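import Mathlib
import Pool.Agent.H939R2.Edim.Basic

set_option autoImplicit false
set_option linter.unusedSectionVars false

/-!
# dim versus edim: cones
-/

namespace Pool.Agent.H939R2.Edim

variable {V : Type} [Fintype V] [DecidableEq V] {G : SimpleGraph V} (B : Base G)

/-- `g` is straight below `v`. -/
def Str (v g : V) : Prop := G.dist g v + B.L v = B.L g

variable {B}

lemma str_down {v g c : V} (h : Str B v g) (hc : G.dist c g + B.L g = B.L c) : Str B v c := by
  unfold Str at *
  have h1 : G.dist c v ≤ G.dist c g + G.dist g v := B.conn.dist_triangle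
  have h2 := B.L_dist' c v
  omega

lemma str_step {v g : V} (h : Str B v g) (hne : g ≠ v) :
    ∃ u, G.Adj g u ∧ Str B v u ∧ B.L u + 1 = B.L g := by
  obtain ⟨u, h1, h2⟩ := exists_closer B.conn (s := v) (g := g) (fun e => hne e.symm)
  unfold Str at *
  rw [SimpleGraph.dist_comm (u := v) (v := u), SimpleGraph.dist_comm (u := v) (v := g)] at h2
  have h3 := B.L_le h1
  have h4 := B.L_dist' u v
  exact ⟨u, h1, by omega, by omega⟩

lemma str_self (v : V) : Str B v v := by
  unfold Str
  rw [SimpleGraph.dist_self]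
  omega

lemma dist_one {u v : V} (h : G.Adj u v) : G.dist u v = 1 :=
  SimpleGraph.dist_eq_one_iff_adj.mpr h

/-- the cone is closed under taking parents -/
lemma par_closed {W Dy : V → Prop} {x g : V} (c1 : ∀ u v, W u → W v → ¬ B.N.Adj u v)
    (hxor : ∀ g, Str B x g → ¬ Dy g → W g)
    (hdown : ∀ g c, Dy g → G.dist c g + B.L g = B.L c → Dy c)
    (hg : Str B x g) (hgy : ¬ Dy g) (hne : g ≠ x) :
    g ≠ B.r ∧ Str B x (B.par g) := by
  obtain ⟨u, h1, h2, h3⟩ := str_step hg hne
  have hu : ¬ Dy u := by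
    intro h
    have := dist_one h1
    exact hgy (hdown u g h (by omega))
  have hup : u = B.par g := by
    by_contra hne'
    exact c1 g u (hxor g hg hgy) (hxor u h2 hu) (B.N_of_upper h1 h3 hne')
  refine ⟨?_, hup ▸ h2⟩
  rintro rfl
  have := B.L_root
  omega

/-- existence of merges -/
lemma merge_two {W : V → Prop} {x y : V} (hxy : x ≠ y) (hk : B.L x = B.L y)
    (c2 : ∀ u v w, W u → W v → B.N.Adj w u → B.N.Adj w v → u = v)
    (hx : ∀ g, Str B x g → ¬ Str B y g → W g) (hy : ∀ g, Str B y g → ¬ Str B x g → W g)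
    (c : V) (hcx : Str B x c) (hcy : Str B y c) :
    ∃ z0 x1, Str B x z0 ∧ Str B y z0 ∧ z0 ≠ B.r ∧ G.dist c z0 + B.L z0 = B.L c ∧
    B.N.Adj x1 z0 ∧ B.L x1 + 1 = B.L z0 ∧ (Str B x x1 ∨ Str B y x1) ∧ W x1 ∧
    (Str B x (B.par z0) ∨ Str B y (B.par z0)) := by
  classical
  let T : Finset V := Finset.univ.filter
    (fun z => Str B x z ∧ Str B y z ∧ G.dist c z + B.L z = B.L c)
  have hT : T.Nonempty := by
    refine ⟨c, Finset.mem_filter.mpr ⟨Finset.mem_univ _, hcx, hcy, ?_⟩⟩
    rw [SimpleGraph.dist_self]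
    omega
  obtain ⟨z, hz, hmin⟩ := T.exists_min_image (fun z => B.L z) hT
  rw [Finset.mem_filter] at hz
  obtain ⟨-, hzx, hzy, hzc⟩ := hz
  have hzx' : z ≠ x := by
    rintro rfl
    unfold Str at hzy
    have : G.dist z y = 0 := by omega
    exact hxy ((B.conn.dist_eq_zero_iff).mp this)
  have hzy' : z ≠ y := by
    rintro rfl
    unfold Str at hzx
    have : G.dist z x = 0 := by omega
    exact hxy ((B.conn.dist_eq_zero_iff).mp this).symm
  have hno : ∀ u, G.Adj z u → B.L u + 1 = B.L z → Str B x u → Str B y u → False := by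
    intro u h1 h2 h3 h4
    have h5 : G.dist c u ≤ G.dist c z + G.dist z u := B.conn.dist_triangle
    have h6 := dist_one h1
    have h7 := B.L_dist' c u
    have := hmin u (Finset.mem_filter.mpr ⟨Finset.mem_univ _, h3, h4, by omega⟩)
    omega
  obtain ⟨u, hu1, hu2, hu3⟩ := str_step hzx hzx'
  obtain ⟨v, hv1, hv2, hv3⟩ := str_step hzy hzy'
  have huW : W u := hx u hu2 (fun h => hno u hu1 hu3 hu2 h)
  have hvW : W v := hy v hv2 (fun h => hno v hv1 hv3 h hv2)
  have huv : u ≠ v := by
    rintro rfl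
    exact hno u hu1 hu3 hu2 hv2
  have hzr : z ≠ B.r := by
    rintro rfl
    have := B.L_root
    omega
  by_cases h : u = B.par z
  · have hvN : B.N.Adj z v := B.N_of_upper hv1 hv3 (fun e => huv (h.trans e.symm))
    exact ⟨z, v, hzx, hzy, hzr, hzc, hvN.symm, hv3, Or.inr hv2, hvW, Or.inl (h ▸ hu2)⟩
  · have huN : B.N.Adj z u := B.N_of_upper hu1 hu3 h
    by_cases h' : v = B.par z
    · exact ⟨z, u, hzx, hzy, hzr, hzc, huN.symm, hu3, Or.inl hu2, huW, Or.inr (h' ▸ hv2)⟩
    · have hvN : B.N.Adj z v := B.N_of_upper hv1 hv3 h'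
      exact absurd (c2 u v z huW hvW huN hvN) huv

/-- the horizontal axiom, once the distance of `g'` to the other top is known -/
lemma horiz_aux {W : V → Prop} {x y : V} (hk : B.L x = B.L y)
    (c2 : ∀ u v w, W u → W v → B.N.Adj w u → B.N.Adj w v → u = v)
    (hy : ∀ g, Str B y g → ¬ Str B x g → W g) {s g g' : V} {b : ℕ} (hsy : G.dist s y ≤ b)
    (hg : Str B x g) (hgy : ¬ Str B y g) (hW : W g) (hb : G.dist s g + B.L x = b + B.L g)
    (hN : B.N.Adj g g') (hL : B.L g' = B.L g) (hd : G.dist s g' = G.dist s g + 1)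
    (hH : G.dist g' y = G.dist g x + 1) :
    ∃ h, G.Adj g' h ∧ ((B.L h + 1 = B.L g' ∧ G.dist s h < G.dist s g') ∨
        (B.L h = B.L g' ∧ Str B x h ∧ Str B y h)) := by
  have hne : y ≠ g' := by
    rintro rfl
    rw [SimpleGraph.dist_self] at hH
    omega
  obtain ⟨h, h1, h2⟩ := exists_closer B.conn hne
  rw [SimpleGraph.dist_comm (u := y) (v := g')] at h2
  have h3 := B.L_le h1
  have h4 := B.L_dist h y
  have hg' := hg
  unfold Str at hg'
  refine ⟨h, h1, ?_⟩
  have h5 : G.dist s h ≤ G.dist s y + G.dist y h := B.conn.dist_triangle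
  by_cases hc : B.L h + 1 = B.L g'
  · left
    exact ⟨hc, by omega⟩
  · right
    have hLh : B.L h = B.L g' := by omega
    have hsty : Str B y h := by
      unfold Str
      rw [SimpleGraph.dist_comm]
      omega
    refine ⟨hLh, ?_, hsty⟩
    by_contra hnx
    have hWh := hy h hsty hnx
    have := c2 h g g' hWh hW (B.N_of_horiz h1 hLh) hN.symm
    rw [this] at hsty
    exact hgy hsty

end Pool.Agent.H939R2.Edim
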