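import Mathlib
import Pool.Agent.H939R2.Edim.Basic

set_option autoImplicit false
set_option linter.unusedSectionVars false

/-!
# dim versus edim: the orientation of the non-tree edges
-/

namespace Pool.Agent.H939R2.Edim

variable {V : Type} [Fintype V] [DecidableEq V] {G : SimpleGraph V} {B : Base G}

def Sav (p : Pr B) (s g : V) : Prop :=
  (p.Dx g ∨ p.Dy g) ∧ G.dist s g + p.k < p.b s + B.L g

def Lead (p : Pr B) (s : V) : Prop :=
  s ∈ B.S ∧ (∃ g, Sav p s g) ∧ ∀ s' ∈ B.S, B.idx s' < B.idx s → ∀ g, ¬ Sav p s' g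

def Mn (p : Pr B) (s g : V) : Prop :=
  Sav p s g ∧ ∀ g', Sav p s g' → G.dist s g + B.L g ≤ G.dist s g' + B.L g'

def Xor' (p : Pr B) (g : V) : Prop := (p.Dx g ∧ ¬ p.Dy g) ∨ (p.Dy g ∧ ¬ p.Dx g)

def ED (B : Base G) (g U : V) : Prop :=
  ∃ p : Pr B, ∃ s, Lead p s ∧ Mn p s g ∧ Xor' p g ∧ B.N.Adj g U ∧ B.L U + 1 = B.L g ∧
    G.dist s U + 1 = G.dist s g ∧
    (p.hasSp → g = p.spa → ∀ s' ∈ B.S, B.idx s' ≤ B.idx s → ¬ B.Res s' p.spa p.spz)

def DD (B : Base G) (g U : V) : Prop :=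
  ∃ p : Pr B, ∃ s, Lead p s ∧ Mn p s g ∧ Xor' p g ∧ p.hasSp ∧ g = p.spa ∧ U = p.spz ∧
    ∃ s' ∈ B.S, B.idx s' ≤ B.idx s ∧ B.Res s' g U

def HD (B : Base G) (g g' : V) : Prop :=
  ∃ p : Pr B, ∃ s, Lead p s ∧ Mn p s g ∧ Xor' p g ∧ (∀ c, Mn p s c → ¬ (p.Dx c ∧ p.Dy c)) ∧
    B.N.Adj g g' ∧ B.L g' = B.L g ∧ G.dist s g' + 1 = G.dist s g ∧
    ∀ u, G.Adj g u → G.dist s u < G.dist s g → B.L u = B.L g

lemma exists_lead (p : Pr B) (h : ∃ s ∈ B.S, ∃ g, Sav p s g) : ∃ s, Lead p s := by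
  classical
  let T : Finset V := B.S.filter (fun s => ∃ g, Sav p s g)
  have hT : T.Nonempty := by
    obtain ⟨s, hs, hg⟩ := h
    exact ⟨s, Finset.mem_filter.mpr ⟨hs, hg⟩⟩
  obtain ⟨s, hs, hmin⟩ := T.exists_min_image B.idx hT
  rw [Finset.mem_filter] at hs
  refine ⟨s, hs.1, hs.2, ?_⟩
  intro s' hs' hlt g hg
  have := hmin s' (Finset.mem_filter.mpr ⟨hs', g, hg⟩)
  omega

lemma exists_mn (p : Pr B) (s : V) (h : ∃ g, Sav p s g) : ∃ g, Mn p s g := by
  classical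
  let T : Finset V := Finset.univ.filter (fun g => Sav p s g)
  have hT : T.Nonempty := by
    obtain ⟨g, hg⟩ := h
    exact ⟨g, Finset.mem_filter.mpr ⟨Finset.mem_univ _, hg⟩⟩
  obtain ⟨g, hg, hmin⟩ := T.exists_min_image (fun g => G.dist s g + B.L g) hT
  rw [Finset.mem_filter] at hg
  exact ⟨g, hg.2, fun g' hg' => hmin g' (Finset.mem_filter.mpr ⟨Finset.mem_univ _, hg'⟩)⟩

/-- a minimiser with maximal level -/
lemma exists_mn_max (p : Pr B) (s : V) (h : ∃ g, Sav p s g) :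
    ∃ g, Mn p s g ∧ ∀ g', Mn p s g' → B.L g' ≤ B.L g := by
  classical
  let T : Finset V := Finset.univ.filter (fun g => Mn p s g)
  have hT : T.Nonempty := by
    obtain ⟨g, hg⟩ := exists_mn p s h
    exact ⟨g, Finset.mem_filter.mpr ⟨Finset.mem_univ _, hg⟩⟩
  obtain ⟨g, hg, hmax⟩ := T.exists_max_image (fun g => B.L g) hT
  rw [Finset.mem_filter] at hg
  exact ⟨g, hg.2, fun g' hg' => hmax g' (Finset.mem_filter.mpr ⟨Finset.mem_univ _, hg'⟩)⟩

lemma Mn.not_upper {p : Pr B} {s g h : V} (hg : Mn p s g) (hD : p.Dx h ∨ p.Dy h)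
    (hl : B.L h + 1 = B.L g) (hd : G.dist s h + 1 = G.dist s g) : False := by
  have h1 := hg.1.2
  have h2 : Sav p s h := ⟨hD, by omega⟩
  have h3 := hg.2 h h2
  omega

lemma Mn.not_upper' {p : Pr B} {s g h : V} (hg : Mn p s g) (hD : p.Dx h ∨ p.Dy h)
    (hl : B.L h + 1 = B.L g) (ha : G.Adj g h) : G.dist s g ≤ G.dist s h := by
  by_contra hlt
  have h1 := dist_adj_le B.conn (s := s) ha
  exact hg.not_upper hD hl (by omega)

lemma Mn.lower {p : Pr B} {s g h : V} (hg : Mn p s g) (ha : G.Adj g h)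
    (hl : B.L h = B.L g + 1) (hd : G.dist s h + 1 = G.dist s g) : Mn p s h := by
  have hdist : G.dist h g = 1 := SimpleGraph.dist_eq_one_iff_adj.mpr ha.symm
  have hD : p.Dx h ∨ p.Dy h := by
    rcases hg.1.1 with hx | hy
    · exact Or.inl (p.downx g h hx (by omega))
    · exact Or.inr (p.downy g h hy (by omega))
  have h1 := hg.1.2
  refine ⟨⟨hD, by omega⟩, ?_⟩
  intro g' hg'
  have := hg.2 g' hg'
  omega

/-- the parent of the source of an `E` dart is not closer -/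
lemma par_not_closer {p : Pr B} {s g : V} (hs : s ∈ B.S) (hg : Mn p s g) (hx : Xor' p g)
    (hsp : p.hasSp → g = p.spa → ∀ s' ∈ B.S, B.idx s' ≤ B.idx s → ¬ B.Res s' p.spa p.spz) :
    G.dist s g ≤ G.dist s (B.par g) := by
  obtain ⟨hr, htop⟩ := p.top g hx
  rcases htop with h | h | h
  · exact hg.not_upper' h (B.L_par hr) (B.par_adj g hr)
  · exact h.1 s hs hg.1.2
  · obtain ⟨h1, h2⟩ := h
    have h3 := hsp h1 h2 s hs le_rfl
    have h4 := p.sp1 h1 s hs (by rw [← h2]; exact hg.1.2)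
    unfold Base.Res at h3
    rw [← h2] at h3 h4
    push Not at h3
    rw [min_eq_left h4] at h3
    exact (min_eq_left_iff).mp h3.symm

/-- the configuration of a merge point above a minimiser in both cones -/
structure Mrg (p : Pr B) (s c z0 x1 : V) : Prop where
  lead : Lead p s
  mn : Mn p s c
  dx : p.Dx z0
  dy : p.Dy z0
  nr : z0 ≠ B.r
  dist : G.dist c z0 + B.L z0 = B.L c
  adj : B.N.Adj x1 z0
  lvl : B.L x1 + 1 = B.L z0
  dx1 : p.Dx x1 ∨ p.Dy x1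
  dpar : p.Dx (B.par z0) ∨ p.Dy (B.par z0)

lemma Mrg.sav_z0_or {p : Pr B} {s c z0 x1 : V} (h : Mrg p s c z0 x1) (p2 : Pr B) (s2 : V)
    (hl2 : Lead p2 s2) (hlt : B.idx s < B.idx s2) (hD : p2.Dx z0 ∨ p2.Dy z0) :
    c = z0 := by
  have hs := h.lead.1
  have hno := hl2.2.2 s hs hlt
  have hDc : p2.Dx c ∨ p2.Dy c := by
    rcases hD with hx | hy
    · exact Or.inl (p2.downx z0 c hx h.dist)
    · exact Or.inr (p2.downy z0 c hy h.dist)
  have e1 : G.dist s z0 + p2.k = p2.b s + B.L z0 := by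
    have := p2.base s hs z0 hD
    by_contra hne
    exact hno z0 ⟨hD, by omega⟩
  have e2 : G.dist s c + p2.k = p2.b s + B.L c := by
    have := p2.base s hs c hDc
    by_contra hne
    exact hno c ⟨hDc, by omega⟩
  have h1 := h.mn.1.2
  have hz : Sav p s z0 := ⟨Or.inl h.dx, by have := h.dist; omega⟩
  have h2 := h.mn.2 z0 hz
  have h3 := h.dist
  have h4 : G.dist c z0 = 0 := by omega
  exact (B.conn.dist_eq_zero_iff).mp h4

lemma Mrg.not_ED {p : Pr B} {s c z0 x1 : V} (h : Mrg p s c z0 x1) : ¬ ED B z0 x1 := by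
  rintro ⟨p2, s2, hl2, hm2, hx2, -, -, hd2, hsp2⟩
  have hs := h.lead.1
  have hs2 := hl2.1
  have hpar := par_not_closer hs2 hm2 hx2 hsp2
  have hLp := B.L_par h.nr
  have hbase := p.base s2 hs2 (B.par z0) h.dpar
  have hlv := h.lvl
  have hsav : Sav p s2 x1 := ⟨h.dx1, by omega⟩
  rcases lt_trichotomy (B.idx s) (B.idx s2) with hlt | heq | hgt
  · have hc := h.sav_z0_or p2 s2 hl2 hlt hm2.1.1
    have hmn := h.mn
    rw [hc] at hmn
    have hno := hl2.2.2 s hs hlt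
    have hno' : ∀ c, (p2.Dx c ∨ p2.Dy c) → ¬ (G.dist s c + p2.k < p2.b s + B.L c) :=
      fun c hc hlt' => hno c ⟨hc, hlt'⟩
    have e1 : G.dist s z0 + p2.k = p2.b s + B.L z0 := by
      have := p2.base s hs z0 hm2.1.1
      have := hno' z0 hm2.1.1
      omega
    rcases (p2.top z0 hx2).2 with hD | hn | hq
    · have e2 : G.dist s (B.par z0) + p2.k = p2.b s + B.L (B.par z0) := by
        have := p2.base s hs _ hD
        have := hno' _ hD
        omega
      exact hmn.not_upper h.dpar hLp (by omega)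
    · exact hmn.not_upper h.dpar hLp (hn.2 s hs hno')
    · obtain ⟨hq1, hq2⟩ := hq
      have h5 := p2.sp2 hq1 s hs hno'
      have h6 := hsp2 hq1 hq2 s hs (le_of_lt hlt)
      unfold Base.Res at h6
      push Not at h6
      rw [← hq2] at h5 h6
      have h7 := hmn.not_upper' h.dpar hLp (B.par_adj z0 h.nr)
      rw [min_eq_left h7] at h6
      omega
  · have hss : s = s2 := B.idx_inj heq
    subst hss
    have hDc : p2.Dx c ∨ p2.Dy c := by
      rcases hm2.1.1 with hx | hy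
      · exact Or.inl (p2.downx z0 c hx h.dist)
      · exact Or.inr (p2.downy z0 c hy h.dist)
    have htri : G.dist s c ≤ G.dist s z0 + G.dist z0 c := B.conn.dist_triangle
    rw [SimpleGraph.dist_comm (u := z0) (v := c)] at htri
    have h1 := hm2.1.2
    have hdd := h.dist
    have hsc : Sav p2 s c := ⟨hDc, by omega⟩
    have h2 := hm2.2 c hsc
    have h3 := h.mn.2 x1 hsav
    omega
  · exact h.lead.2.2 s2 hs2 hgt x1 hsav

lemma Mrg.not_DD {p : Pr B} {s c z0 x1 : V} (h : Mrg p s c z0 x1) : ¬ DD B z0 x1 := by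
  rintro ⟨p2, s2, hl2, hm2, hx2, hq1, hq2, hq3, s', hs', hidx, hres⟩
  have hs := h.lead.1
  have hs2 := hl2.1
  have hLp := B.L_par h.nr
  have hlv := h.lvl
  -- `s'` has a saving for `p`
  have hge : B.idx s ≤ B.idx s' := by
    by_contra hlt
    push Not at hlt
    have hno := h.lead.2.2 s' hs' hlt
    have e1 : G.dist s' x1 + p.k = p.b s' + B.L x1 := by
      have := p.base s' hs' x1 h.dx1
      by_contra hne
      exact hno x1 ⟨h.dx1, by omega⟩
    have e2 : G.dist s' (B.par z0) + p.k = p.b s' + B.L (B.par z0) := by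
      have := p.base s' hs' _ h.dpar
      by_contra hne
      exact hno _ ⟨h.dpar, by omega⟩
    apply hres
    have : G.dist s' x1 = G.dist s' (B.par z0) := by omega
    rw [this]
  rcases lt_or_eq_of_le (hge.trans hidx) with hlt | heq
  · have hc := h.sav_z0_or p2 s2 hl2 hlt hm2.1.1
    have hmn := h.mn
    rw [hc] at hmn
    have hno := hl2.2.2 s hs hlt
    have hno' : ∀ c, (p2.Dx c ∨ p2.Dy c) → ¬ (G.dist s c + p2.k < p2.b s + B.L c) :=
      fun c hc hlt' => hno c ⟨hc, hlt'⟩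
    have h5 := p2.sp2 hq1 s hs hno'
    rw [← hq2, ← hq3] at h5
    exact hmn.not_upper h.dx1 h.lvl h5
  · have hss : s = s2 := B.idx_inj heq
    subst hss
    have hss' : s = s' := B.idx_inj (le_antisymm hge hidx)
    subst hss'
    have h4 := p2.sp1 hq1 s hs (by rw [← hq2]; exact hm2.1.2)
    rw [← hq2, ← hq3] at h4
    unfold Base.Res at hres
    rw [min_eq_left h4] at hres
    have h5 : G.dist s (B.par z0) < G.dist s z0 := by
      by_contra hle
      push Not at hle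
      exact hres (min_eq_left hle).symm
    have h6 := dist_adj_le B.conn (s := s) (B.par_adj z0 h.nr)
    have hb := p.base s hs x1 h.dx1
    have hsav : Sav p s (B.par z0) := ⟨h.dpar, by omega⟩
    have hDc : p2.Dx c ∨ p2.Dy c := by
      rcases hm2.1.1 with hx | hy
      · exact Or.inl (p2.downx z0 c hx h.dist)
      · exact Or.inr (p2.downy z0 c hy h.dist)
    have htri : G.dist s c ≤ G.dist s z0 + G.dist z0 c := B.conn.dist_triangle
    rw [SimpleGraph.dist_comm (u := z0) (v := c)] at htri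
    have h1 := hm2.1.2
    have hdd := h.dist
    have hsc : Sav p2 s c := ⟨hDc, by omega⟩
    have h2 := hm2.2 c hsc
    have h3 := h.mn.2 _ hsav
    omega

lemma HD_aux {g g' : V} {p p2 : Pr B} {s s2 : V} (hl : Lead p s) (hm : Mn p s g)
    (hx : Xor' p g) (hc : ∀ c, Mn p s c → ¬ (p.Dx c ∧ p.Dy c)) (ha : B.N.Adj g g')
    (hL : B.L g' = B.L g) (hd : G.dist s g' + 1 = G.dist s g)
    (hl2 : Lead p2 s2) (hd2 : G.dist s2 g + 1 = G.dist s2 g')
    (hu2 : ∀ u, G.Adj g' u → G.dist s2 u < G.dist s2 g' → B.L u = B.L g')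
    (hlt : B.idx s2 < B.idx s) : False := by
  have hno := hl.2.2 s2 hl2.1 hlt
  have hno' : ∀ c, (p.Dx c ∨ p.Dy c) → ¬ (G.dist s2 c + p.k < p.b s2 + B.L c) :=
    fun c hc hlt' => hno c ⟨hc, hlt'⟩
  obtain ⟨h, hadj, hh⟩ := p.horiz s2 hl2.1 hno' g hx g' ha hL (by omega)
  rcases hh with ⟨h1, h2⟩ | ⟨h1, h2, h3⟩
  · have := hu2 h hadj h2
    omega
  · have h4 := dist_adj_le B.conn (s := s) hadj.symm
    have h5 := hm.1.2
    have h6 : Sav p s h := ⟨Or.inl h2, by omega⟩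
    refine hc h ⟨h6, ?_⟩ ⟨h2, h3⟩
    intro g'' hg''
    have := hm.2 g'' hg''
    omega

lemma HD_asymm {g g' : V} (h1 : HD B g g') (h2 : HD B g' g) : False := by
  obtain ⟨p, s, hl, hm, hx, hc, ha, hL, hd, hu⟩ := h1
  obtain ⟨p2, s2, hl2, hm2, hx2, hc2, ha2, hL2, hd2, hu2⟩ := h2
  rcases lt_trichotomy (B.idx s) (B.idx s2) with hlt | heq | hgt
  · exact HD_aux hl2 hm2 hx2 hc2 ha2 hL2 hd2 hl hd hu hlt
  · have hss : s = s2 := B.idx_inj heq
    subst hss
    omega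
  · exact HD_aux hl hm hx hc ha hL hd hl2 hd2 hu2 hgt

lemma core_pair (p : Pr B) (hsav : ∃ s ∈ B.S, ∃ g, Sav p s g) :
    (∃ x1 z0, p.W x1 ∧ B.N.Adj x1 z0 ∧ B.L x1 + 1 = B.L z0 ∧ ¬ ED B z0 x1 ∧ ¬ DD B z0 x1) ∨
    (∃ g U, p.W g ∧ B.N.Adj g U ∧ B.L U + 1 = B.L g ∧ (ED B g U ∨ DD B g U)) ∨
    (∃ g g', p.W g ∧ B.N.Adj g g' ∧ B.L g' = B.L g ∧ HD B g g') := by
  obtain ⟨s, hl⟩ := exists_lead p hsav
  by_cases hcc : ∃ c, Mn p s c ∧ p.Dx c ∧ p.Dy c
  · obtain ⟨c, hc, hcx, hcy⟩ := hcc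
    obtain ⟨z0, x1, hz1, hz2, hz3, hz4, hz5, hz6, hz7, hz8, hz9⟩ := p.merge c hcx hcy
    have hM : Mrg p s c z0 x1 := ⟨hl, hc, hz1, hz2, hz3, hz4, hz5, hz6, hz7, hz9⟩
    exact Or.inl ⟨x1, z0, hz8, hz5, hz6, hM.not_ED, hM.not_DD⟩
  · push Not at hcc
    have hcc' : ∀ c, Mn p s c → ¬ (p.Dx c ∧ p.Dy c) := fun c hc hh => hcc c hc hh.1 hh.2
    right
    obtain ⟨g, hg, hmax⟩ := exists_mn_max p s hl.2.1
    have hx : Xor' p g := by
      rcases hg.1.1 with h | h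
      · exact Or.inl ⟨h, fun h' => hcc g hg h h'⟩
      · exact Or.inr ⟨h, fun h' => hcc g hg h' h⟩
    have hW : p.W g := by
      rcases hx with h | h
      · exact p.xorx g h.1 h.2
      · exact p.xory g h.1 h.2
    have hsg : s ≠ g := by
      rintro rfl
      exact p.hS s hl.1 hW
    have hlow : ∀ u, G.Adj g u → G.dist s u + 1 = G.dist s g → B.L u ≤ B.L g := by
      intro u hu hd
      by_contra hlt
      have h1 := B.L_le hu.symm
      have := hmax u (hg.lower hu (by omega) hd)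
      omega
    obtain ⟨g', hadj, hd⟩ := exists_closer B.conn hsg
    by_cases hup : ∃ U, G.Adj g U ∧ B.L U + 1 = B.L g ∧ G.dist s U + 1 = G.dist s g
    · left
      obtain ⟨U, hU1, hU2, hU3⟩ := hup
      by_cases hq : p.hasSp ∧ g = p.spa ∧ ∃ s' ∈ B.S, B.idx s' ≤ B.idx s ∧ B.Res s' p.spa p.spz
      · obtain ⟨hq1, hq2, s', hs', hidx, hres⟩ := hq
        have hN := p.spN hq1
        have hLs := p.spL hq1
        rw [← hq2] at hN hLs hres
        exact ⟨g, p.spz, hW, hN, hLs,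
          Or.inr ⟨p, s, hl, hg, hx, hq1, hq2, rfl, s', hs', hidx, hres⟩⟩
      · have hsp : p.hasSp → g = p.spa → ∀ s' ∈ B.S, B.idx s' ≤ B.idx s →
            ¬ B.Res s' p.spa p.spz := by
          intro hq1 hq2 s' hs' hidx hres
          exact hq ⟨hq1, hq2, s', hs', hidx, hres⟩
        have hpar := par_not_closer hl.1 hg hx hsp
        have hne : U ≠ B.par g := by
          rintro rfl
          omega
        have hN := B.N_of_upper hU1 hU2 hne
        exact ⟨g, U, hW, hN, hU2, Or.inl ⟨p, s, hl, hg, hx, hN, hU2, hU3, hsp⟩⟩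
    · right
      push Not at hup
      have hall : ∀ u, G.Adj g u → G.dist s u < G.dist s g → B.L u = B.L g := by
        intro u hu hlt
        have h1 := dist_adj_le B.conn (s := s) hu
        have h2 : G.dist s u + 1 = G.dist s g := by omega
        have h3 := hlow u hu h2
        have h4 := B.L_le hu
        by_contra hne
        exact hup u hu (by omega) h2
      have hLg := hall g' hadj (by omega)
      have hN := B.N_of_horiz hadj hLg
      exact ⟨g, g', hW, hN, hLg, p, s, hl, hg, hx, hcc', hN, hLg, hd, hall⟩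

/-- CORE -/
theorem core (B : Base G) (AD : V → V → Prop) (hN : ∀ a z, AD a z → B.N.Adj a z)
    (hL : ∀ a z, AD a z → B.L a = B.L z) (hA1 : ∀ a z, AD a z → ¬ AD z a)
    (hA2 : ∀ a z, AD a z → ∀ s ∈ B.S, G.dist s a + 1 = G.dist s z →
      ∃ β, G.Adj z β ∧ B.L β = B.L z + 1 ∧ G.dist s β < G.dist s z) :
    ∃ Out : V → V → Prop, (∀ u v, Out u v → B.N.Adj u v) ∧ (∀ u v, Out u v → ¬ Out v u) ∧
      (∀ a z, AD a z → Out a z) ∧
      (∀ U l, B.N.Adj U l → B.L U + 1 = B.L l → ¬ Out U l → ∃ s ∈ B.S, B.Res s l U) ∧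
      (∀ p : Pr B, (∃ s ∈ B.S, ∃ g, (p.Dx g ∨ p.Dy g) ∧ G.dist s g + p.k < p.b s + B.L g) →
        ∃ u v, p.W u ∧ Out u v) := by
  have hAH : ∀ a z, AD a z → HD B z a → False := by
    rintro a z h1 ⟨p, s, hl, hm, hx, hc, ha, hL', hd, hu⟩
    obtain ⟨β, hβ1, hβ2, hβ3⟩ := hA2 a z h1 s hl.1 hd
    have := hu β hβ1 hβ3
    omega
  refine ⟨fun u v => B.N.Adj u v ∧ ((B.L u < B.L v ∧ ¬ (ED B v u ∨ DD B v u)) ∨
    (B.L v < B.L u ∧ (ED B u v ∨ DD B u v)) ∨ (B.L u = B.L v ∧ (HD B u v ∨ AD u v))),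
    fun u v h => h.1, ?_, ?_, ?_, ?_⟩
  · rintro u v ⟨-, h⟩ ⟨-, h'⟩
    rcases h with ⟨h1, h2⟩ | ⟨h1, h2⟩ | ⟨h1, h2⟩ <;>
      rcases h' with ⟨h3, h4⟩ | ⟨h3, h4⟩ | ⟨h3, h4⟩ <;> try omega
    · exact h2 h4
    · exact h4 h2
    · rcases h2 with h2 | h2 <;> rcases h4 with h4 | h4
      · exact HD_asymm h2 h4
      · exact hAH v u h4 h2
      · exact hAH u v h2 h4
      · exact hA1 u v h2 h4
  · intro a z h
    exact ⟨hN a z h, Or.inr (Or.inr ⟨hL a z h, Or.inr h⟩)⟩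
  · intro U l hUl hlv hout
    have h1 : ED B l U ∨ DD B l U := by
      by_contra hne
      exact hout ⟨hUl, Or.inl ⟨by omega, hne⟩⟩
    rcases h1 with ⟨p, s, hl, hm, hx, -, -, hd, hsp⟩ | ⟨p, s, hl, hm, hx, -, -, -, s', hs', -, hres⟩
    · have hpar := par_not_closer hl.1 hm hx hsp
      refine ⟨s, hl.1, ?_⟩
      unfold Base.Res
      rw [min_eq_left hpar, min_eq_right (by omega)]
      omega
    · exact ⟨s', hs', hres⟩
  · intro p hp
    rcases core_pair p hp with ⟨x1, z0, h1, h2, h3, h4, h5⟩ | ⟨g, U, h1, h2, h3, h4⟩ |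
      ⟨g, g', h1, h2, h3, h4⟩
    · exact ⟨x1, z0, h1, h2, Or.inl ⟨by omega, by tauto⟩⟩
    · exact ⟨g, U, h1, h2, Or.inr (Or.inl ⟨by omega, h4⟩)⟩
    · exact ⟨g, g', h1, h2, Or.inr (Or.inr ⟨h3.symm, Or.inl h4⟩)⟩

end Pool.Agent.H939R2.Edim
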