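import Mathlib
import Pool.Agent.H939R2.Edim.Basic

set_option autoImplicit false
set_option linter.unusedSectionVars false

/-!
# dim versus edim: the counting argument
-/

namespace Pool.Agent.H939R2.Edim

variable {V : Type} [Fintype V] [DecidableEq V] {G : SimpleGraph V}

/-- BASE: existence of the tree -/
theorem exists_base (hG : G.Connected) (S : Finset V) (hS : S.Nonempty) :
    ∃ B : Base G, B.S = S := by
  classical
  obtain ⟨r, hr⟩ := hS
  have h : ∀ v : V, ∃ w, v ≠ r → (G.Adj v w ∧ G.dist r w + 1 = G.dist r v) := by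
    intro v
    by_cases hv : v = r
    · exact ⟨v, fun h => absurd hv h⟩
    · obtain ⟨w, hw⟩ := exists_closer hG (s := r) (g := v) (fun e => hv e.symm)
      exact ⟨w, fun _ => hw⟩
  choose f hf using h
  refine ⟨{ conn := hG, S := S, r := r, hr := hr, idx := fun v => (Fintype.equivFin V v : ℕ),
            idx_inj := ?_, par := fun v => if v = r then r else f v, par_root := ?_,
            par_adj := ?_, par_lvl := ?_ }, rfl⟩
  · intro a b hab
    exact (Fintype.equivFin V).injective (Fin.ext hab)
  · simp
  · intro v hv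
    simp only [hv, if_false]
    exact (hf v hv).1
  · intro v hv
    simp only [hv, if_false]
    exact (hf v hv).2

lemma exists_closer_of_reachable {H : SimpleGraph V} {v t : V} (h : H.Reachable v t)
    (hne : v ≠ t) : ∃ w, H.Adj v w ∧ H.dist w t + 1 = H.dist v t := by
  obtain ⟨w, hw⟩ := h.exists_walk_length_eq_dist
  cases w with
  | nil => exact absurd rfl hne
  | @cons _ u _ hadj p =>
    refine ⟨u, hadj, ?_⟩
    have h1 : H.dist u t ≤ p.length := SimpleGraph.dist_le p
    obtain ⟨q, hq⟩ := p.reachable.exists_walk_length_eq_dist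
    have h2 : H.dist v t ≤ (SimpleGraph.Walk.cons hadj q).length := SimpleGraph.dist_le _
    rw [SimpleGraph.Walk.length_cons] at hw h2
    omega

/-- number of non-tree edges -/
theorem card_N [DecidableRel G.Adj] (B : Base G) (T : Finset (Sym2 V))
    (hT : ∀ e ∈ T, e ∈ B.N.edgeSet) :
    T.card + Fintype.card V ≤ G.edgeFinset.card + 1 := by
  classical
  let P : Finset (Sym2 V) := (Finset.univ.erase B.r).image (fun v => s(v, B.par v))
  have hPc : P.card + 1 = Fintype.card V := by
    have h1 : P.card = (Finset.univ.erase B.r).card := by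
      apply Finset.card_image_of_injOn
      intro v hv w hw hvw
      have hv' : v ≠ B.r := Finset.ne_of_mem_erase hv
      have hw' : w ≠ B.r := Finset.ne_of_mem_erase hw
      simp only [Sym2.eq_iff] at hvw
      rcases hvw with h | h
      · exact h.1
      · have h2 := B.L_par hv'
        have h3 := B.L_par hw'
        rw [h.2] at h2
        rw [← h.1] at h3
        omega
    rw [h1, Finset.card_erase_of_mem (Finset.mem_univ _), Finset.card_univ]
    have : 0 < Fintype.card V := Fintype.card_pos_iff.mpr ⟨B.r⟩
    omega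
  have hdisj : Disjoint T P := by
    rw [Finset.disjoint_left]
    intro e he he'
    have h1 := hT e he
    obtain ⟨v, -, rfl⟩ := Finset.mem_image.mp he'
    rw [SimpleGraph.mem_edgeSet] at h1
    exact h1.2.1 rfl
  have hsub : T ∪ P ⊆ G.edgeFinset := by
    intro e he
    rw [SimpleGraph.mem_edgeFinset]
    rcases Finset.mem_union.mp he with h | h
    · have h1 := hT e h
      revert h1
      refine Sym2.ind (fun a b => ?_) e
      intro h1
      rw [SimpleGraph.mem_edgeSet] at h1 ⊢
      exact h1.1
    · obtain ⟨v, hv, rfl⟩ := Finset.mem_image.mp h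
      rw [SimpleGraph.mem_edgeSet]
      exact B.par_adj v (Finset.ne_of_mem_erase hv)
  have h2 := Finset.card_le_card hsub
  rw [Finset.card_union_of_disjoint hdisj] at h2
  omega

/-- COUNT -/
theorem exists_A [DecidableRel G.Adj] (B : Base G) (Out : V → V → Prop)
    (h1 : ∀ u v, Out u v → B.N.Adj u v) (h2 : ∀ u v, Out u v → ¬ Out v u) :
    ∃ A : Finset V, A.card + Fintype.card V ≤ G.edgeFinset.card + 1 ∧
      (∀ u v, u ∉ A → v ∉ A → B.N.Reachable u v → u = v) ∧
      (∀ u v, u ∉ A → ¬ Out u v) := by
  classical
  have hsel : ∀ C : B.N.ConnectedComponent, ∃ t : V,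
      (∃ v, B.N.connectedComponentMk v = C ∧ ∀ w, ¬ Out v w) →
      (B.N.connectedComponentMk t = C ∧ ∀ w, ¬ Out t w) := by
    intro C
    by_cases h : ∃ v, B.N.connectedComponentMk v = C ∧ ∀ w, ¬ Out v w
    · obtain ⟨v, hv⟩ := h
      exact ⟨v, fun _ => hv⟩
    · exact ⟨B.r, fun h' => absurd h' h⟩
  choose sel hselp using hsel
  let HS : B.N.ConnectedComponent → Prop := fun C =>
    ∃ v, B.N.connectedComponentMk v = C ∧ ∀ w, ¬ Out v w
  let X : V → Prop := fun v => HS (B.N.connectedComponentMk v) ∧
    v = sel (B.N.connectedComponentMk v)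
  let A : Finset V := Finset.univ.filter (fun v => ¬ X v)
  have hA : ∀ v, v ∉ A → X v := by
    intro v hv
    by_contra hx
    exact hv (Finset.mem_filter.mpr ⟨Finset.mem_univ _, hx⟩)
  have hA' : ∀ v, v ∈ A → ¬ X v := fun v hv => (Finset.mem_filter.mp hv).2
  -- the next vertex
  have hnx : ∀ v : V, ∃ w, v ∈ A → (B.N.Adj v w ∧
      ((HS (B.N.connectedComponentMk v) ∧
        B.N.dist w (sel (B.N.connectedComponentMk v)) + 1 =
          B.N.dist v (sel (B.N.connectedComponentMk v))) ∨
       (¬ HS (B.N.connectedComponentMk v) ∧ Out v w))) := by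
    intro v
    by_cases hv : v ∈ A
    · by_cases hs : HS (B.N.connectedComponentMk v)
      · have h3 := hselp _ hs
        have hne : v ≠ sel (B.N.connectedComponentMk v) := by
          intro e
          exact hA' v hv ⟨hs, e⟩
        have hr : B.N.Reachable v (sel (B.N.connectedComponentMk v)) := by
          have := h3.1
          rw [SimpleGraph.ConnectedComponent.eq] at this
          exact this.symm
        obtain ⟨w, hw1, hw2⟩ := exists_closer_of_reachable hr hne
        exact ⟨w, fun _ => ⟨hw1, Or.inl ⟨hs, hw2⟩⟩⟩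
      · have : ∃ w, Out v w := by
          by_contra hno
          push Not at hno
          exact hs ⟨v, rfl, hno⟩
        obtain ⟨w, hw⟩ := this
        exact ⟨w, fun _ => ⟨h1 v w hw, Or.inr ⟨hs, hw⟩⟩⟩
    · exact ⟨v, fun h => absurd h hv⟩
  choose nx hnxp using hnx
  refine ⟨A, ?_, ?_, ?_⟩
  · have hcard : (A.image (fun v => s(v, nx v))).card = A.card := by
      apply Finset.card_image_of_injOn
      intro v hv w hw hvw
      simp only [Sym2.eq_iff] at hvw
      rcases hvw with h | h
      · exact h.1
      · exfalso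
        obtain ⟨hv1, hv2⟩ := hnxp v hv
        obtain ⟨hw1, hw2⟩ := hnxp w hw
        rw [h.2] at hv1 hv2
        rw [← h.1] at hw1 hw2
        have hcomp : B.N.connectedComponentMk v = B.N.connectedComponentMk w :=
          SimpleGraph.ConnectedComponent.connectedComponentMk_eq_of_adj hv1
        rw [hcomp] at hv2
        rcases hv2 with ⟨ha, hb⟩ | ⟨ha, hb⟩ <;> rcases hw2 with ⟨hc, hd⟩ | ⟨hc, hd⟩
        · omega
        · exact hc ha
        · exact ha hc
        · exact h2 v w hb hd
    have := card_N B (A.image (fun v => s(v, nx v))) (by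
      intro e he
      obtain ⟨v, hv, rfl⟩ := Finset.mem_image.mp he
      rw [SimpleGraph.mem_edgeSet]
      exact (hnxp v hv).1)
    rw [hcard] at this
    exact this
  · intro u v hu hv hr
    have hxu := hA u hu
    have hxv := hA v hv
    have hc : B.N.connectedComponentMk u = B.N.connectedComponentMk v :=
      SimpleGraph.ConnectedComponent.eq.mpr hr
    rw [hxu.2, hxv.2, hc]
  · intro u v hu
    have hxu := hA u hu
    have h3 := (hselp _ hxu.1).2 v
    rw [← hxu.2] at h3
    exact h3

end Pool.Agent.H939R2.Edim
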