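import Mathlib
import Pool.Agent.H939R2.Edim.Core
import Pool.Agent.H939R2.Edim.Count
import Pool.Agent.H939R2.Edim.Cone

set_option autoImplicit false
set_option linter.unusedSectionVars false

/-!
# dim versus edim: from edge resolving sets to resolving sets
-/

namespace Pool.Agent.H939R2.Edim

variable {V : Type} [Fintype V] [DecidableEq V] {G : SimpleGraph V}

/-- the edge resolving hypothesis -/
def ERes (B : Base G) : Prop :=
  ∀ a b c d : V, G.Adj a b → G.Adj c d → s(a, b) ≠ s(c, d) →
      ∃ w ∈ B.S, min (G.dist a w) (G.dist b w) ≠ min (G.dist c w) (G.dist d w)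

/-- if a landmark has no saving, then the parent of a top is closer -/
lemma par_closer_ev {B : Base G} (hres : ERes B) {x y : V} (hxy : x ≠ y)
    (hS : ∀ s ∈ B.S, G.dist s x = G.dist s y)
    (c1 : ∀ u v, G.dist u x ≠ G.dist u y → G.dist v x ≠ G.dist v y → ¬ B.N.Adj u v)
    {s : V} (hs : s ∈ B.S)
    (hlow : ∀ h, G.Adj x h → B.L h = B.L x + 1 → G.dist s h + 1 ≠ G.dist s x) :
    G.dist s (B.par x) + 1 = G.dist s x := by
  have hWx : G.dist x x ≠ G.dist x y := by
    rw [SimpleGraph.dist_self]
    intro h
    exact hxy ((B.conn.dist_eq_zero_iff).mp h.symm)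
  have hsx : s ≠ x := by
    rintro rfl
    exact hWx (hS s hs)
  obtain ⟨h, h1, h2⟩ := exists_closer B.conn hsx
  have hNN : ¬ B.N.Adj x h := by
    intro hN
    have h3 : G.dist h x = G.dist h y := by
      by_contra hne
      exact c1 x h hWx hne hN
    have h4 : G.dist h y = 1 := by
      rw [← h3]
      exact dist_one h1.symm
    have h5 : G.Adj h y := SimpleGraph.dist_eq_one_iff_adj.mp h4
    obtain ⟨w, hw1, hw2⟩ := hres h x h y h1.symm h5 (by
      intro e
      rcases Sym2.eq_iff.mp e with e | e
      · exact hxy e.2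
      · exact G.loopless.irrefl _ (e.1 ▸ h5))
    apply hw2
    have h6 := hS w hw1
    rw [SimpleGraph.dist_comm (u := x), SimpleGraph.dist_comm (u := y), h6]
  have h3 := B.L_le h1
  have h4 := B.L_le h1.symm
  have h5 : h = B.par x := by
    by_contra hne
    rcases (by omega : B.L h + 1 = B.L x ∨ B.L h = B.L x ∨ B.L h = B.L x + 1) with h6 | h6 | h6
    · exact hNN (B.N_of_upper h1 h6 hne)
    · exact hNN (B.N_of_horiz h1 h6)
    · exact hlow h h1 h6 h2
  rw [← h5]
  exact h2

section

variable {B : Base G} {x y : V}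

/-- auxiliary: the horizontal axiom for vertex pairs -/
lemma horiz_ev (hk : B.L x = B.L y) (hS : ∀ s ∈ B.S, G.dist s x = G.dist s y)
    (c1 : ∀ u v, G.dist u x ≠ G.dist u y → G.dist v x ≠ G.dist v y → ¬ B.N.Adj u v)
    (c2 : ∀ u v w, G.dist u x ≠ G.dist u y → G.dist v x ≠ G.dist v y →
      B.N.Adj w u → B.N.Adj w v → u = v)
    (hy : ∀ g, Str B y g → ¬ Str B x g → G.dist g x ≠ G.dist g y)
    {s g g' : V} (hs : s ∈ B.S) (hg : Str B x g) (hgy : ¬ Str B y g)
    (hW : G.dist g x ≠ G.dist g y)
    (hb : G.dist s g + B.L x = G.dist s x + B.L g)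
    (hN : B.N.Adj g g') (hL : B.L g' = B.L g) (hd : G.dist s g' = G.dist s g + 1) :
    ∃ h, G.Adj g' h ∧ ((B.L h + 1 = B.L g' ∧ G.dist s h < G.dist s g') ∨
        (B.L h = B.L g' ∧ Str B x h ∧ Str B y h)) := by
  have hsxy := hS s hs
  refine horiz_aux (W := fun g => G.dist g x ≠ G.dist g y) hk c2 hy (b := G.dist s x)
    (by omega) hg hgy hW hb hN hL hd ?_
  have h1 : G.dist g' x = G.dist g' y := by
    by_contra hne
    exact c1 g g' hW hne hN
  have h2 : G.dist g' x ≤ G.dist g' g + G.dist g x := B.conn.dist_triangle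
  have h3 := dist_one (B.N_adj hN).symm
  have h4 : G.dist s g' ≤ G.dist s y + G.dist y g' := B.conn.dist_triangle
  rw [SimpleGraph.dist_comm (u := y) (v := g')] at h4
  unfold Str at hg
  omega

/-- the abstract pair of two vertices -/
noncomputable def prEV (hres : ERes B) (hxy : x ≠ y) (hk : B.L x = B.L y)
    (hS : ∀ s ∈ B.S, G.dist s x = G.dist s y)
    (c1 : ∀ u v, G.dist u x ≠ G.dist u y → G.dist v x ≠ G.dist v y → ¬ B.N.Adj u v)
    (c2 : ∀ u v w, G.dist u x ≠ G.dist u y → G.dist v x ≠ G.dist v y →
      B.N.Adj w u → B.N.Adj w v → u = v) : Pr B :=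
  have hx : ∀ g, Str B x g → ¬ Str B y g → G.dist g x ≠ G.dist g y := by
    intro g h1 h2 h3
    apply h2
    unfold Str at *
    omega
  have hy : ∀ g, Str B y g → ¬ Str B x g → G.dist g x ≠ G.dist g y := by
    intro g h1 h2 h3
    apply h2
    unfold Str at *
    omega
  have hxr : x ≠ B.r := by
    rintro rfl
    rw [B.L_root] at hk
    exact hxy (B.L_eq_zero.mp hk.symm).symm
  have hyr : y ≠ B.r := by
    rintro rfl
    rw [B.L_root] at hk
    exact hxy (B.L_eq_zero.mp hk)
  { W := fun g => G.dist g x ≠ G.dist g y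
    Dx := Str B x
    Dy := Str B y
    k := B.L x
    b := fun s => G.dist s x
    hasSp := False
    spa := x
    spz := x
    hS := fun s hs h => h (hS s hs)
    c1 := c1
    c2 := c2
    xorx := hx
    xory := hy
    base := by
      intro s hs g hg
      rcases hg with hg | hg
      · have h1 : G.dist s g ≤ G.dist s x + G.dist x g := B.conn.dist_triangle
        rw [SimpleGraph.dist_comm (u := x) (v := g)] at h1
        unfold Str at hg
        omega
      · have h1 : G.dist s g ≤ G.dist s y + G.dist y g := B.conn.dist_triangle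
        rw [SimpleGraph.dist_comm (u := y) (v := g)] at h1
        have := hS s hs
        unfold Str at hg
        omega
    downx := fun g c hg hc => str_down hg hc
    downy := fun g c hg hc => str_down hg hc
    top := by
      intro g hg
      rcases hg with ⟨h1, h2⟩ | ⟨h1, h2⟩
      · by_cases hgx : g = x
        · subst hgx
          refine ⟨hxr, Or.inr (Or.inl ⟨?_, ?_⟩)⟩
          · intro s _ h
            omega
          · intro s hs hno
            refine par_closer_ev hres hxy hS c1 hs ?_
            intro h h3 h4 h5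
            have h6 := dist_one h3.symm
            have h7 : Str B g h := by
              unfold Str
              omega
            exact hno h (Or.inl h7) (by omega)
        · obtain ⟨h3, h4⟩ := par_closed (W := fun g => G.dist g x ≠ G.dist g y) c1 hx
            (fun g c hg hc => str_down hg hc) h1 h2 hgx
          exact ⟨h3, Or.inl (Or.inl h4)⟩
      · by_cases hgy : g = y
        · subst hgy
          refine ⟨hyr, Or.inr (Or.inl ⟨?_, ?_⟩)⟩
          · intro s hs h
            have := hS s hs
            omega
          · intro s hs hno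
            refine par_closer_ev hres (Ne.symm hxy) (fun s hs => (hS s hs).symm)
              (fun u v hu hv => c1 u v (Ne.symm hu) (Ne.symm hv)) hs ?_
            intro h h3 h4 h5
            have h6 := dist_one h3.symm
            have h7 : Str B g h := by
              unfold Str
              omega
            have := hS s hs
            exact hno h (Or.inr h7) (by omega)
        · obtain ⟨h3, h4⟩ := par_closed (W := fun g => G.dist g x ≠ G.dist g y) c1 hy
            (fun g c hg hc => str_down hg hc) h1 h2 hgy
          exact ⟨h3, Or.inl (Or.inr h4)⟩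
    spN := fun h => h.elim
    spL := fun h => h.elim
    sp1 := fun h => h.elim
    sp2 := fun h => h.elim
    merge := fun c hcx hcy => merge_two (W := fun g => G.dist g x ≠ G.dist g y) hxy hk c2 hx hy
      c hcx hcy
    horiz := by
      intro s hs hno g hg g' hN hL hd
      rcases hg with ⟨h1, h2⟩ | ⟨h1, h2⟩
      · have hb : G.dist s g + B.L x = G.dist s x + B.L g := by
          have h3 : G.dist s g ≤ G.dist s x + G.dist x g := B.conn.dist_triangle
          rw [SimpleGraph.dist_comm (u := x) (v := g)] at h3
          have h4 := hno g (Or.inl h1)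
          unfold Str at h1
          omega
        exact horiz_ev hk hS c1 c2 hy hs h1 h2 (hx g h1 h2) hb hN hL hd
      · have hsxy := hS s hs
        have hb : G.dist s g + B.L y = G.dist s y + B.L g := by
          have h3 : G.dist s g ≤ G.dist s y + G.dist y g := B.conn.dist_triangle
          rw [SimpleGraph.dist_comm (u := y) (v := g)] at h3
          have h4 := hno g (Or.inr h1)
          unfold Str at h1
          omega
        obtain ⟨h, h3, h4⟩ := horiz_ev hk.symm (fun s hs => (hS s hs).symm)
          (fun u v hu hv => c1 u v (Ne.symm hu) (Ne.symm hv))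
          (fun u v w hu hv => c2 u v w (Ne.symm hu) (Ne.symm hv))
          (fun g hg hg' => (hx g hg hg').symm) hs h1 h2 (hy g h1 h2).symm hb hN hL hd
        exact ⟨h, h3, h4.imp id (fun h5 => ⟨h5.1, h5.2.2, h5.2.1⟩)⟩ }

end

/-- E2V: from edges to vertices -/
theorem e2v [DecidableRel G.Adj] (B : Base G) (hres : ERes B) :
    ∃ A : Finset V, A.card + Fintype.card V ≤ G.edgeFinset.card + 1 ∧
      ∀ u v : V, u ≠ v → ∃ w ∈ B.S ∪ A, G.dist u w ≠ G.dist v w := by
  classical
  obtain ⟨Out, hO1, hO2, -, -, hO5⟩ := core B (fun _ _ => False) (fun _ _ h => h.elim)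
    (fun _ _ h => h.elim) (fun _ _ h => h.elim) (fun _ _ h => h.elim)
  obtain ⟨A, hA1, hA2, hA3⟩ := exists_A B Out hO1 hO2
  refine ⟨A, hA1, ?_⟩
  intro x y hxy
  by_contra hcon
  push Not at hcon
  have hcon' : ∀ w, w ∈ B.S ∪ A → G.dist w x = G.dist w y := by
    intro w hw
    rw [SimpleGraph.dist_comm (u := w), SimpleGraph.dist_comm (u := w)]
    exact hcon w hw
  have hS : ∀ s ∈ B.S, G.dist s x = G.dist s y :=
    fun s hs => hcon' s (Finset.mem_union_left _ hs)
  have hk : B.L x = B.L y := hS B.r B.hr
  have hWA : ∀ u, G.dist u x ≠ G.dist u y → u ∉ A := fun u hu huA =>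
    hu (hcon' u (Finset.mem_union_right _ huA))
  have c1 : ∀ u v, G.dist u x ≠ G.dist u y → G.dist v x ≠ G.dist v y → ¬ B.N.Adj u v := by
    intro u v hu hv hN
    have := hA2 u v (hWA u hu) (hWA v hv) hN.reachable
    exact hN.ne this
  have c2 : ∀ u v w, G.dist u x ≠ G.dist u y → G.dist v x ≠ G.dist v y →
      B.N.Adj w u → B.N.Adj w v → u = v := by
    intro u v w hu hv h1 h2
    exact hA2 u v (hWA u hu) (hWA v hv) (h1.symm.reachable.trans h2.reachable)
  let p : Pr B := prEV hres hxy hk hS c1 c2
  have hsav : ∃ s ∈ B.S, ∃ g, (p.Dx g ∨ p.Dy g) ∧ G.dist s g + p.k < p.b s + B.L g := by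
    by_contra hno
    push Not at hno
    have hxr : x ≠ B.r := by
      rintro rfl
      rw [B.L_root] at hk
      exact hxy (B.L_eq_zero.mp hk.symm).symm
    have hyr : y ≠ B.r := by
      rintro rfl
      rw [B.L_root] at hk
      exact hxy (B.L_eq_zero.mp hk)
    have hne : s(x, B.par x) ≠ s(y, B.par y) := by
      intro e
      rcases Sym2.eq_iff.mp e with e | e
      · exact hxy e.1
      · have h1 := B.L_par hxr
        rw [e.2] at h1
        omega
    obtain ⟨w, hw1, hw2⟩ := hres x (B.par x) y (B.par y) (B.par_adj x hxr) (B.par_adj y hyr) hne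
    apply hw2
    have hs := hS w hw1
    have e1 : G.dist w (B.par x) + 1 = G.dist w x := by
      refine par_closer_ev hres hxy hS c1 hw1 ?_
      intro h h3 h4 h5
      have h6 := dist_one h3.symm
      have h7 : Str B x h := by
        unfold Str
        omega
      have h8 : p.b w + B.L h ≤ G.dist w h + p.k := hno w hw1 h (Or.inl h7)
      have h9 : p.b w = G.dist w x := rfl
      have h10 : p.k = B.L x := rfl
      omega
    have e2 : G.dist w (B.par y) + 1 = G.dist w y := by
      refine par_closer_ev hres (Ne.symm hxy) (fun s hs => (hS s hs).symm)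
        (fun u v hu hv => c1 u v (Ne.symm hu) (Ne.symm hv)) hw1 ?_
      intro h h3 h4 h5
      have h6 := dist_one h3.symm
      have h7 : Str B y h := by
        unfold Str
        omega
      have h8 : p.b w + B.L h ≤ G.dist w h + p.k := hno w hw1 h (Or.inr h7)
      have h9 : p.b w = G.dist w x := rfl
      have h10 : p.k = B.L x := rfl
      omega
    rw [SimpleGraph.dist_comm (u := x), SimpleGraph.dist_comm (u := y),
      SimpleGraph.dist_comm (u := B.par x), SimpleGraph.dist_comm (u := B.par y)]
    omega
  obtain ⟨u, v, huW, huv⟩ := hO5 p hsav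
  exact hA3 u v (hWA u huW) huv

end Pool.Agent.H939R2.Edim
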