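import Mathlib
import Pool.Agent.H939R2.Edim.Core
import Pool.Agent.H939R2.Edim.Count
import Pool.Agent.H939R2.Edim.Cone

set_option autoImplicit false
set_option linter.unusedSectionVars false

/-!
# dim versus edim: from resolving sets to edge resolving sets
-/

namespace Pool.Agent.H939R2.Edim

variable {V : Type} [Fintype V] [DecidableEq V] {G : SimpleGraph V}

/-- distance from `g` to the edge `a b` -/
noncomputable def de (G : SimpleGraph V) (g a b : V) : ℕ := min (G.dist g a) (G.dist g b)

lemma de_comm (g a b : V) : de G g a b = de G g b a := min_comm _ _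

lemma str_le {B : Base G} {x g z : V} (h : Str B x g) (hz : B.L z + 1 = B.L x) :
    G.dist g x + 1 ≤ G.dist g z := by
  have h1 := B.L_dist' g z
  unfold Str at h
  omega

lemma not_str_le {B : Base G} {x y g : V} (h : Str B x g) (hk : B.L x = B.L y)
    (hy : ¬ Str B y g) : G.dist g x + 1 ≤ G.dist g y := by
  have h1 := B.L_dist' g y
  unfold Str at h hy
  omega

section

variable {B : Base G} {x y zx zy : V}

lemma de_x {g : V} (h : Str B x g) (hzx : B.L zx + 1 = B.L x) :
    de G g x zx = G.dist g x := by
  have := str_le h hzx
  unfold de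
  omega

lemma xor_vv (hk : B.L x = B.L y) (hzx : B.L zx + 1 = B.L x) (hzy : B.L zy + 1 = B.L y)
    {g : V} (h : Str B x g) (h' : ¬ Str B y g) : de G g x zx ≠ de G g y zy := by
  have h1 := de_x h hzx
  have h2 := not_str_le h hk h'
  have h3 := str_le (z := zy) h (by omega)
  rw [h1]
  unfold de
  omega

lemma le_de {s : V} (ha : G.Adj x zx) (hG : G.Connected) : G.dist s x ≤ de G s x zx + 1 := by
  have := dist_adj_le hG (s := s) ha
  unfold de
  omega

/-- auxiliary: distance of a horizontal exit to the other top -/
lemma exit_vv {s g g' : V} {b : ℕ} (hG : G.Connected) (hsx : G.dist s x ≤ b)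
    (hzx : G.dist s zx + 1 = b) (hsy : G.dist s y ≤ b) (hzy : G.dist s zy + 1 = b)
    (hadj : G.Adj g g') (hd : G.dist s g' = b + G.dist g x + 1)
    (hW : de G g' x zx = de G g' y zy) : G.dist g' y = G.dist g x + 1 := by
  have h1 : G.dist g' x ≤ G.dist g' g + G.dist g x := hG.dist_triangle
  have h2 := dist_one hadj.symm
  have h3 : G.dist s g' ≤ G.dist s x + G.dist x g' := hG.dist_triangle
  have h4 : G.dist s g' ≤ G.dist s zx + G.dist zx g' := hG.dist_triangle
  have h5 : G.dist s g' ≤ G.dist s y + G.dist y g' := hG.dist_triangle
  have h6 : G.dist s g' ≤ G.dist s zy + G.dist zy g' := hG.dist_triangle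
  rw [SimpleGraph.dist_comm (u := x) (v := g')] at h3
  rw [SimpleGraph.dist_comm (u := zx) (v := g')] at h4
  rw [SimpleGraph.dist_comm (u := y) (v := g')] at h5
  rw [SimpleGraph.dist_comm (u := zy) (v := g')] at h6
  unfold de at hW
  omega

/-- the horizontal axiom -/
lemma horiz_vv (hk : B.L x = B.L y)
    (hzx : B.L zx + 1 = B.L x) (hzy : B.L zy + 1 = B.L y)
    (c1 : ∀ u v, de G u x zx ≠ de G u y zy → de G v x zx ≠ de G v y zy → ¬ B.N.Adj u v)
    (c2 : ∀ u v w, de G u x zx ≠ de G u y zy → de G v x zx ≠ de G v y zy →
      B.N.Adj w u → B.N.Adj w v → u = v)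
    {s g g' : V} {b : ℕ} (hsx : G.dist s x ≤ b)
    (hsz : G.dist s zx + 1 = b) (hsy : G.dist s y ≤ b) (hsz' : G.dist s zy + 1 = b)
    (hg : Str B x g) (hgy : ¬ Str B y g)
    (hb : G.dist s g + B.L x = b + B.L g)
    (hN : B.N.Adj g g') (hL : B.L g' = B.L g) (hd : G.dist s g' = G.dist s g + 1) :
    ∃ h, G.Adj g' h ∧ ((B.L h + 1 = B.L g' ∧ G.dist s h < G.dist s g') ∨
        (B.L h = B.L g' ∧ Str B x h ∧ Str B y h)) := by
  have hW := xor_vv hk hzx hzy hg hgy
  have hW' : de G g' x zx = de G g' y zy := by
    by_contra hne
    exact c1 g g' hW hne hN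
  have hH : G.dist g' y = G.dist g x + 1 := by
    refine exit_vv B.conn hsx hsz hsy hsz' (B.N_adj hN) ?_ hW'
    unfold Str at hg
    omega
  exact horiz_aux (W := fun g => de G g x zx ≠ de G g y zy) hk c2
    (fun g h1 h2 => (xor_vv hk.symm hzy hzx h1 h2).symm) hsy hg hgy hW hb hN hL hd hH

/-- the abstract pair of two vertical edges with different lower end points -/
noncomputable def prVV (sp : Prop) (hxy : x ≠ y) (hk : B.L x = B.L y)
    (hax : G.Adj x zx) (hzx : B.L zx + 1 = B.L x) (hzy : B.L zy + 1 = B.L y)
    (hay : B.par y = zy) (hsp : (¬ sp ∧ B.par x = zx) ∨ (sp ∧ B.N.Adj x zx))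
    (hS : ∀ s ∈ B.S, de G s x zx = de G s y zy)
    (c1 : ∀ u v, de G u x zx ≠ de G u y zy → de G v x zx ≠ de G v y zy → ¬ B.N.Adj u v)
    (c2 : ∀ u v w, de G u x zx ≠ de G u y zy → de G v x zx ≠ de G v y zy →
      B.N.Adj w u → B.N.Adj w v → u = v) : Pr B :=
  have hx : ∀ g, Str B x g → ¬ Str B y g → de G g x zx ≠ de G g y zy :=
    fun g h1 h2 => xor_vv hk hzx hzy h1 h2
  have hy : ∀ g, Str B y g → ¬ Str B x g → de G g x zx ≠ de G g y zy :=
    fun g h1 h2 => (xor_vv hk.symm hzy hzx h1 h2).symm
  have hxr : x ≠ B.r := by
    rintro rfl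
    rw [B.L_root] at hzx
    omega
  have hyr : y ≠ B.r := by
    rintro rfl
    rw [B.L_root] at hzy
    omega
  have hadjy : G.Adj y zy := hay ▸ B.par_adj y hyr
  have hbx : ∀ s, G.dist s x ≤ de G s x zx + 1 := fun s => le_de hax B.conn
  have hby : ∀ s ∈ B.S, G.dist s y ≤ de G s x zx + 1 := by
    intro s hs
    have := le_de (s := s) hadjy B.conn
    rw [← hS s hs] at this
    exact this
  { W := fun g => de G g x zx ≠ de G g y zy
    Dx := Str B x
    Dy := Str B y
    k := B.L x
    b := fun s => de G s x zx + 1
    hasSp := sp
    spa := x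
    spz := zx
    hS := fun s hs h => h (hS s hs)
    c1 := c1
    c2 := c2
    xorx := hx
    xory := hy
    base := by
      intro s hs g hg
      rcases hg with hg | hg
      · have h1 : G.dist s g ≤ G.dist s x + G.dist x g := B.conn.dist_triangle
        rw [SimpleGraph.dist_comm (u := x) (v := g)] at h1
        have := hbx s
        unfold Str at hg
        omega
      · have h1 : G.dist s g ≤ G.dist s y + G.dist y g := B.conn.dist_triangle
        rw [SimpleGraph.dist_comm (u := y) (v := g)] at h1
        have := hby s hs
        unfold Str at hg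
        omega
    downx := fun g c hg hc => str_down hg hc
    downy := fun g c hg hc => str_down hg hc
    top := by
      intro g hg
      rcases hg with ⟨h1, h2⟩ | ⟨h1, h2⟩
      · by_cases hgx : g = x
        · subst hgx
          refine ⟨hxr, Or.inr ?_⟩
          rcases hsp with ⟨-, hp⟩ | ⟨hsp, -⟩
          · left
            rw [hp]
            constructor
            · intro s _ h
              unfold de at h
              omega
            · intro s _ hno
              have h3 := hno g (Or.inl (str_self g))
              have h4 := dist_adj_le B.conn (s := s) hax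
              unfold de at h3
              omega
          · right
            exact ⟨hsp, rfl⟩
        · obtain ⟨h3, h4⟩ := par_closed (W := fun g => de G g x zx ≠ de G g y zy) c1 hx
            (fun g c hg hc => str_down hg hc) h1 h2 hgx
          exact ⟨h3, Or.inl (Or.inl h4)⟩
      · by_cases hgy : g = y
        · subst hgy
          refine ⟨hyr, Or.inr (Or.inl ?_)⟩
          rw [hay]
          constructor
          · intro s hs h
            rw [hS s hs] at h
            unfold de at h
            omega
          · intro s hs hno
            have h3 := hno g (Or.inr (str_self g))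
            rw [hS s hs] at h3
            have h4 := dist_adj_le B.conn (s := s) hadjy
            unfold de at h3
            omega
        · obtain ⟨h3, h4⟩ := par_closed (W := fun g => de G g x zx ≠ de G g y zy) c1 hy
            (fun g c hg hc => str_down hg hc) h1 h2 hgy
          exact ⟨h3, Or.inl (Or.inr h4)⟩
    spN := by
      intro h
      rcases hsp with ⟨h1, -⟩ | ⟨-, h1⟩
      · exact absurd h h1
      · exact h1
    spL := fun _ => hzx
    sp1 := by
      intro _ s _ h
      unfold de at h
      omega
    sp2 := by
      intro _ s _ hno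
      have h3 := hno x (Or.inl (str_self x))
      have h4 := dist_adj_le B.conn (s := s) hax
      unfold de at h3
      omega
    merge := fun c hcx hcy => merge_two (W := fun g => de G g x zx ≠ de G g y zy) hxy hk c2 hx hy
      c hcx hcy
    horiz := by
      intro s hs hno g hg g' hN hL hd
      have hsx0 := hno x (Or.inl (str_self x))
      have hsy0 := hno y (Or.inr (str_self y))
      have e0 := hS s hs
      have e1 := dist_adj_le B.conn (s := s) hax
      have e2 := dist_adj_le B.conn (s := s) hadjy
      have f1 : G.dist s zx + 1 = de G s x zx + 1 := by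
        unfold de at *
        omega
      have f2 : G.dist s zy + 1 = de G s x zx + 1 := by
        unfold de at *
        omega
      rcases hg with ⟨h1, h2⟩ | ⟨h1, h2⟩
      · have hb : G.dist s g + B.L x = (de G s x zx + 1) + B.L g := by
          have h3 : G.dist s g ≤ G.dist s x + G.dist x g := B.conn.dist_triangle
          rw [SimpleGraph.dist_comm (u := x) (v := g)] at h3
          have h4 := hno g (Or.inl h1)
          have h5 := hbx s
          unfold Str at h1
          omega
        exact horiz_vv hk hzx hzy c1 c2 (hbx s) f1 (hby s hs) f2 h1 h2 hb hN hL hd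
      · have hb : G.dist s g + B.L y = (de G s x zx + 1) + B.L g := by
          have h3 : G.dist s g ≤ G.dist s y + G.dist y g := B.conn.dist_triangle
          rw [SimpleGraph.dist_comm (u := y) (v := g)] at h3
          have h4 := hno g (Or.inr h1)
          have h5 := hby s hs
          unfold Str at h1
          omega
        obtain ⟨h, h3, h4⟩ := horiz_vv hk.symm hzy hzx
          (fun u v hu hv => c1 u v (Ne.symm hu) (Ne.symm hv))
          (fun u v w hu hv => c2 u v w (Ne.symm hu) (Ne.symm hv))
          (hby s hs) f2 (hbx s) f1 h1 h2 hb hN hL hd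
        exact ⟨h, h3, h4.imp id (fun h5 => ⟨h5.1, h5.2.2, h5.2.1⟩)⟩ }

end

section

variable {B : Base G} {a y z : V}

/-- the abstract pair of a horizontal non-tree edge `a z` and a tree edge `y z` below `z` -/
noncomputable def prH (ha : B.N.Adj a z) (hL : B.L a = B.L z) (hyr : y ≠ B.r)
    (hyz : B.par y = z)
    (hS : ∀ s ∈ B.S, de G s a z = de G s y z)
    (c1 : ∀ u v, de G u a z ≠ de G u y z → de G v a z ≠ de G v y z → ¬ B.N.Adj u v)
    (c2 : ∀ u v w, de G u a z ≠ de G u y z → de G v a z ≠ de G v y z →
      B.N.Adj w u → B.N.Adj w v → u = v) : Pr B :=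
  have hLy : B.L z + 1 = B.L y := hyz ▸ B.L_par hyr
  have hadj : G.Adj y z := hyz ▸ B.par_adj y hyr
  have hx : ∀ g, Str B y g → de G g a z ≠ de G g y z := by
    intro g hg
    have h1 := str_le hg hLy
    have h2 := B.L_dist' g a
    unfold Str at hg
    unfold de
    omega
  { W := fun g => de G g a z ≠ de G g y z
    Dx := Str B y
    Dy := fun _ => False
    k := B.L y
    b := fun s => G.dist s z + 1
    hasSp := False
    spa := y
    spz := z
    hS := fun s hs h => h (hS s hs)
    c1 := c1
    c2 := c2
    xorx := fun g h _ => hx g h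
    xory := fun _ h => h.elim
    base := by
      intro s hs g hg
      rcases hg with hg | hg
      · have h1 : G.dist s g ≤ G.dist s y + G.dist y g := B.conn.dist_triangle
        rw [SimpleGraph.dist_comm (u := y) (v := g)] at h1
        have := dist_adj_le B.conn (s := s) hadj
        unfold Str at hg
        omega
      · exact hg.elim
    downx := fun g c hg hc => str_down hg hc
    downy := fun g c hg _ => hg
    top := by
      intro g hg
      rcases hg with ⟨h1, -⟩ | ⟨h1, -⟩
      · by_cases hgy : g = y
        · subst hgy
          refine ⟨hyr, Or.inr (Or.inl ?_)⟩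
          rw [hyz]
          constructor
          · intro s _ h
            omega
          · intro s _ hno
            have h3 := hno g (Or.inl (str_self g))
            have h4 := dist_adj_le B.conn (s := s) hadj
            omega
        · obtain ⟨h3, h4⟩ := par_closed (W := fun g => de G g a z ≠ de G g y z)
            (Dy := fun _ => False) c1 (fun g h _ => hx g h)
            (fun g c hg _ => hg) h1 (fun h => h) hgy
          exact ⟨h3, Or.inl (Or.inl h4)⟩
      · exact h1.elim
    spN := fun h => h.elim
    spL := fun h => h.elim
    sp1 := fun h => h.elim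
    sp2 := fun h => h.elim
    merge := fun c _ hcy => hcy.elim
    horiz := by
      intro s hs hno g hg g' hN hL' hd
      have hgy : Str B y g := by
        rcases hg with ⟨h1, -⟩ | ⟨h1, -⟩
        · exact h1
        · exact h1.elim
      have hb := hno g (Or.inl hgy)
      have hW' : de G g' a z = de G g' y z := by
        by_contra hne
        exact c1 g g' (hx g hgy) hne hN
      have hadj' := B.N_adj hN
      have h1 : G.dist g' y ≤ G.dist g' g + G.dist g y := B.conn.dist_triangle
      have h2 := dist_one hadj'.symm
      have h3 : G.dist s g' ≤ G.dist s z + G.dist z g' := B.conn.dist_triangle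
      rw [SimpleGraph.dist_comm (u := z) (v := g')] at h3
      have h4 := B.L_dist' g' a
      have h5 : G.dist g' a = G.dist g y + 1 := by
        unfold Str at hgy
        unfold de at hW'
        omega
      have hne : a ≠ g' := by
        rintro rfl
        rw [SimpleGraph.dist_self] at h5
        omega
      obtain ⟨h, h6, h7⟩ := exists_closer B.conn hne
      rw [SimpleGraph.dist_comm (u := a) (v := g')] at h7
      have h8 := B.L_le h6
      have h9 := B.L_dist h a
      have h10 : G.dist s h ≤ G.dist s a + G.dist a h := B.conn.dist_triangle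
      have h11 := dist_adj_le B.conn (s := s) (B.N_adj ha)
      unfold Str at hgy
      exact ⟨h, h6, Or.inl ⟨by omega, by omega⟩⟩ }

end

end Pool.Agent.H939R2.Edim
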