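import Mathlib
import Pool.Agent.H939R2.Edim.V2E

set_option autoImplicit false
set_option linter.unusedSectionVars false

/-!
# dim versus edim: from resolving sets to edge resolving sets, conclusion
-/

namespace Pool.Agent.H939R2.Edim

variable {V : Type} [Fintype V] [DecidableEq V] {G : SimpleGraph V}

/-- the resolving hypothesis -/
def VRes (B : Base G) : Prop := ∀ u v : V, u ≠ v → ∃ w ∈ B.S, G.dist u w ≠ G.dist v w

/-- the extra darts -/
def ADart (B : Base G) (a z : V) : Prop :=
  ∃ y, B.N.Adj a z ∧ B.L a = B.L z ∧ y ≠ B.r ∧ B.par y = z ∧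
    (∀ s ∈ B.S, de G s a z = de G s y z) ∧
    ∃ s ∈ B.S, G.dist s z < G.dist s a ∧
      ∀ s' ∈ B.S, B.idx s' < B.idx s → G.dist s' a = G.dist s' z

/-- all the data needed for the final contradiction -/
structure Fin2 (B : Base G) (A : Finset V) (Out : V → V → Prop) : Prop where
  hA2 : ∀ u v, u ∉ A → v ∉ A → B.N.Reachable u v → u = v
  hA3 : ∀ u v, u ∉ A → ¬ Out u v
  hAD : ∀ a z, ADart B a z → Out a z
  hup : ∀ U l, B.N.Adj U l → B.L U + 1 = B.L l → ¬ Out U l → ∃ s ∈ B.S, B.Res s l U
  hpr : ∀ p : Pr B, (∃ s ∈ B.S, ∃ g, (p.Dx g ∨ p.Dy g) ∧ G.dist s g + p.k < p.b s + B.L g) →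
        ∃ u v, p.W u ∧ Out u v
  hres : VRes B

namespace Fin2

variable {B : Base G} {A : Finset V} {Out : V → V → Prop}

lemma cond1 (H : Fin2 B A Out) {a b c d : V} (hun : ∀ w ∈ B.S ∪ A, de G w a b = de G w c d) :
    (∀ u v, de G u a b ≠ de G u c d → de G v a b ≠ de G v c d → ¬ B.N.Adj u v) ∧
    (∀ u v w, de G u a b ≠ de G u c d → de G v a b ≠ de G v c d →
      B.N.Adj w u → B.N.Adj w v → u = v) ∧ (∀ u, de G u a b ≠ de G u c d → u ∉ A) := by
  have hWA : ∀ u, de G u a b ≠ de G u c d → u ∉ A := fun u hu huA =>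
    hu (hun u (Finset.mem_union_right _ huA))
  refine ⟨?_, ?_, hWA⟩
  · intro u v hu hv hN
    exact hN.ne (H.hA2 u v (hWA u hu) (hWA v hv) hN.reachable)
  · intro u v w hu hv h1 h2
    exact H.hA2 u v (hWA u hu) (hWA v hv) (h1.symm.reachable.trans h2.reachable)

/-- vertical edges with different lower end points -/
lemma no_vv (H : Fin2 B A Out) (sp : Prop) {x y zx zy : V} (hxy : x ≠ y) (hk : B.L x = B.L y)
    (hax : G.Adj x zx) (hzx : B.L zx + 1 = B.L x) (hzy : B.L zy + 1 = B.L y)
    (hay : B.par y = zy) (hsp : (¬ sp ∧ B.par x = zx) ∨ (sp ∧ B.N.Adj x zx))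
    (hun : ∀ w ∈ B.S ∪ A, de G w x zx = de G w y zy) : False := by
  obtain ⟨c1, c2, hWA⟩ := H.cond1 hun
  have hS : ∀ s ∈ B.S, de G s x zx = de G s y zy :=
    fun s hs => hun s (Finset.mem_union_left _ hs)
  let p : Pr B := prVV sp hxy hk hax hzx hzy hay hsp hS c1 c2
  have hsav : ∃ s ∈ B.S, ∃ g, (p.Dx g ∨ p.Dy g) ∧ G.dist s g + p.k < p.b s + B.L g := by
    obtain ⟨s, hs, hd⟩ := H.hres x y hxy
    refine ⟨s, hs, ?_⟩
    by_contra hno
    push Not at hno
    have h1 : p.b s + B.L x ≤ G.dist s x + p.k := hno x (Or.inl (str_self x))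
    have h2 : p.b s + B.L y ≤ G.dist s y + p.k := hno y (Or.inr (str_self y))
    have h3 : p.b s = de G s x zx + 1 := rfl
    have h4 : p.k = B.L x := rfl
    have h5 : G.dist s x ≤ de G s x zx + 1 := le_de hax B.conn
    have hyr : y ≠ B.r := by
      rintro rfl
      rw [B.L_root] at hzy
      omega
    have hadjy : G.Adj y zy := hay ▸ B.par_adj y hyr
    have h6 : G.dist s y ≤ de G s y zy + 1 := le_de hadjy B.conn
    rw [← hS s hs] at h6
    apply hd
    rw [SimpleGraph.dist_comm (u := x), SimpleGraph.dist_comm (u := y)]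
    omega
  obtain ⟨u, v, huW, huv⟩ := H.hpr p hsav
  exact H.hA3 u v (hWA u huW) huv

/-- a horizontal non-tree edge and a tree edge below -/
lemma no_h (H : Fin2 B A Out) {a y z : V} (ha : B.N.Adj a z) (hL : B.L a = B.L z)
    (hyr : y ≠ B.r) (hyz : B.par y = z) (haA : a ∉ A)
    (hun : ∀ w ∈ B.S ∪ A, de G w a z = de G w y z) : False := by
  classical
  obtain ⟨c1, c2, hWA⟩ := H.cond1 hun
  have hS : ∀ s ∈ B.S, de G s a z = de G s y z :=
    fun s hs => hun s (Finset.mem_union_left _ hs)
  -- the first landmark which distinguishes `a` and `z`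
  let T : Finset V := B.S.filter (fun s => G.dist s a ≠ G.dist s z)
  have hT : T.Nonempty := by
    obtain ⟨s, hs, hd⟩ := H.hres a z ha.ne
    refine ⟨s, Finset.mem_filter.mpr ⟨hs, ?_⟩⟩
    rw [SimpleGraph.dist_comm (u := s), SimpleGraph.dist_comm (u := s)]
    exact hd
  obtain ⟨s, hs, hmin⟩ := T.exists_min_image B.idx hT
  rw [Finset.mem_filter] at hs
  obtain ⟨hs1, hs2⟩ := hs
  have hbefore : ∀ s' ∈ B.S, B.idx s' < B.idx s → G.dist s' a = G.dist s' z := by
    intro s' hs' hlt
    by_contra hne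
    have := hmin s' (Finset.mem_filter.mpr ⟨hs', hne⟩)
    omega
  rcases lt_or_gt_of_ne hs2 with hlt | hgt
  · let p : Pr B := prH ha hL hyr hyz hS c1 c2
    have hLy : B.L z + 1 = B.L y := hyz ▸ B.L_par hyr
    have hsav : ∃ s ∈ B.S, ∃ g, (p.Dx g ∨ p.Dy g) ∧ G.dist s g + p.k < p.b s + B.L g := by
      refine ⟨s, hs1, y, Or.inl (str_self y), ?_⟩
      have h1 : p.b s = G.dist s z + 1 := rfl
      have h2 : p.k = B.L y := rfl
      have h3 := hS s hs1
      unfold de at h3
      omega
    obtain ⟨u, v, huW, huv⟩ := H.hpr p hsav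
    exact H.hA3 u v (hWA u huW) huv
  · exact H.hA3 a z haA (H.hAD a z ⟨y, ha, hL, hyr, hyz, hS, s, hs1, hgt, hbefore⟩)

lemma de_self_left (z b : V) : de G z z b = 0 := by
  unfold de
  rw [SimpleGraph.dist_self]
  simp

lemma de_eq_zero {g a b : V} (h : de G g a b = 0) (hG : G.Connected) : g = a ∨ g = b := by
  unfold de at h
  rcases Nat.min_eq_zero_iff.mp h with h | h
  · exact Or.inl ((hG.dist_eq_zero_iff).mp h)
  · exact Or.inr ((hG.dist_eq_zero_iff).mp h)

/-- two tree edges -/
lemma no_TT (H : Fin2 B A Out) {x y : V} (hx : x ≠ B.r) (hy : y ≠ B.r) (hxy : x ≠ y)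
    (hun : ∀ w ∈ B.S ∪ A, de G w x (B.par x) = de G w y (B.par y)) : False := by
  have h1 := B.L_par hx
  have h2 := B.L_par hy
  have h3 := hun B.r (Finset.mem_union_left _ B.hr)
  have h4 : B.L x = B.L y := by
    unfold de at h3
    unfold Base.L at *
    omega
  exact H.no_vv False hxy h4 (B.par_adj x hx) h1 h2 rfl (Or.inl ⟨fun h => h, rfl⟩) hun

/-- a non-tree edge `a z` with `z ∈ A` and a tree edge `y (par y)` -/
lemma no_NT' (H : Fin2 B A Out) {a z y : V} (ha : B.N.Adj a z) (hz : z ∈ A) (hy : y ≠ B.r)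
    (hun : ∀ w ∈ B.S ∪ A, de G w a z = de G w y (B.par y)) : False := by
  have hLy := B.L_par hy
  have hzf : z = y ∨ z = B.par y := by
    have h1 := hun z (Finset.mem_union_right _ hz)
    rw [de_comm, de_self_left] at h1
    exact de_eq_zero h1.symm B.conn
  have haA : a ∉ A := by
    intro haA
    have h1 := hun a (Finset.mem_union_right _ haA)
    rw [de_self_left] at h1
    have h2 := de_eq_zero h1.symm B.conn
    rcases hzf with h3 | h3 <;> rcases h2 with h4 | h4
    · exact ha.ne (h4.trans h3.symm)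
    · apply ha.2.2
      rw [h3, h4]
    · apply ha.2.1
      rw [h3, h4]
    · exact ha.ne (h4.trans h3.symm)
  have hlev := hun B.r (Finset.mem_union_left _ B.hr)
  have hadj := B.N_adj ha
  have hl1 := B.L_le hadj
  have hl2 := B.L_le hadj.symm
  rcases hzf with h3 | h3
  · -- the tree edge goes up from `z`
    subst h3
    have h5 : B.L a + 1 = B.L z := by
      unfold de at hlev
      unfold Base.L at *
      omega
    obtain ⟨s, hs, hr⟩ := H.hup a z ha h5 (H.hA3 a z haA)
    apply hr
    have := hun s (Finset.mem_union_left _ hs)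
    unfold de at this
    rw [min_comm]
    exact this
  · -- the tree edge goes down from `z`
    have h6 : B.L a = B.L z ∨ B.L a = B.L z + 1 := by
      unfold de at hlev
      rw [h3] at hl1 hl2 hlev ⊢
      unfold Base.L at *
      omega
    rcases h6 with h6 | h6
    · exact H.no_h ha h6 hy h3.symm haA (by rw [← h3] at hun; exact hun)
    · have hay : a ≠ y := by
        rintro rfl
        exact ha.2.1 h3.symm
      exact H.no_vv True hay (by rw [h3] at h6; omega) hadj (by omega) hLy rfl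
        (Or.inr ⟨trivial, ha⟩) hun

lemma no_NT (H : Fin2 B A Out) {a z y : V} (ha : B.N.Adj a z) (hy : y ≠ B.r)
    (hun : ∀ w ∈ B.S ∪ A, de G w a z = de G w y (B.par y)) : False := by
  by_cases hz : z ∈ A
  · exact H.no_NT' ha hz hy hun
  · by_cases haA : a ∈ A
    · exact H.no_NT' ha.symm haA hy (fun w hw => by rw [de_comm]; exact hun w hw)
    · exact ha.ne (H.hA2 a z haA hz ha.reachable)

/-- two non-tree edges with a common vertex in `A` -/
lemma no_NN'' (H : Fin2 B A Out) {a d z : V} (ha : B.N.Adj a z) (hd : B.N.Adj d z)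
    (hne : a ≠ d) (hun : ∀ w ∈ B.S ∪ A, de G w a z = de G w d z) : False := by
  have haA : a ∉ A := by
    intro haA
    have h1 := hun a (Finset.mem_union_right _ haA)
    rw [de_self_left] at h1
    rcases de_eq_zero h1.symm B.conn with h | h
    · exact hne h
    · exact ha.ne h
  have hdA : d ∉ A := by
    intro hdA
    have h1 := hun d (Finset.mem_union_right _ hdA)
    rw [de_self_left] at h1
    rcases de_eq_zero h1 B.conn with h | h
    · exact hne h.symm
    · exact hd.ne h
  exact hne (H.hA2 a d haA hdA (ha.reachable.trans hd.symm.reachable))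

lemma no_NN' (H : Fin2 B A Out) {a z c d : V} (ha : B.N.Adj a z) (hd : B.N.Adj c d)
    (hz : z ∈ A) (hne : s(a, z) ≠ s(c, d))
    (hun : ∀ w ∈ B.S ∪ A, de G w a z = de G w c d) : False := by
  have h1 := hun z (Finset.mem_union_right _ hz)
  rw [de_comm, de_self_left] at h1
  rcases de_eq_zero h1.symm B.conn with h | h
  · subst h
    refine H.no_NN'' ha hd.symm ?_ (fun w hw => by rw [hun w hw, de_comm])
    rintro rfl
    exact hne (Sym2.eq_swap)
  · subst h
    refine H.no_NN'' ha hd ?_ hun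
    rintro rfl
    exact hne rfl

lemma no_NN (H : Fin2 B A Out) {a z c d : V} (ha : B.N.Adj a z) (hd : B.N.Adj c d)
    (hne : s(a, z) ≠ s(c, d))
    (hun : ∀ w ∈ B.S ∪ A, de G w a z = de G w c d) : False := by
  by_cases hz : z ∈ A
  · exact H.no_NN' ha hd hz hne hun
  · by_cases haA : a ∈ A
    · refine H.no_NN' ha.symm hd haA ?_ (fun w hw => by rw [de_comm]; exact hun w hw)
      intro e
      exact hne (Sym2.eq_swap.trans e)
    · exact ha.ne (H.hA2 a z haA hz ha.reachable)

/-- every edge is a tree edge or a non-tree edge -/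
lemma edge_cases (B : Base G) {a b : V} (h : G.Adj a b) :
    B.N.Adj a b ∨ (a ≠ B.r ∧ B.par a = b) ∨ (b ≠ B.r ∧ B.par b = a) := by
  by_cases h1 : B.par a = b
  · right; left
    refine ⟨?_, h1⟩
    rintro rfl
    rw [B.par_root] at h1
    subst h1
    exact G.loopless.irrefl _ h
  · by_cases h2 : B.par b = a
    · right; right
      refine ⟨?_, h2⟩
      rintro rfl
      rw [B.par_root] at h2
      subst h2
      exact G.loopless.irrefl _ h
    · exact Or.inl ⟨h, h1, h2⟩

lemma final (H : Fin2 B A Out) {a b c d : V} (hab : G.Adj a b) (hcd : G.Adj c d)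
    (hne : s(a, b) ≠ s(c, d)) (hun : ∀ w ∈ B.S ∪ A, de G w a b = de G w c d) : False := by
  rcases edge_cases B hab with h1 | ⟨h1, h2⟩ | ⟨h1, h2⟩ <;>
    rcases edge_cases B hcd with h3 | ⟨h3, h4⟩ | ⟨h3, h4⟩
  · exact H.no_NN h1 h3 hne hun
  · subst h4
    exact H.no_NT h1 h3 hun
  · subst h4
    exact H.no_NT h1 h3 (fun w hw => by rw [hun w hw, de_comm])
  · subst h2
    exact H.no_NT h3 h1 (fun w hw => (hun w hw).symm)
  · subst h2 h4
    refine H.no_TT h1 h3 ?_ hun
    rintro rfl
    exact hne rfl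
  · subst h2 h4
    refine H.no_TT h1 h3 ?_ (fun w hw => by rw [hun w hw, de_comm])
    rintro rfl
    exact hne Sym2.eq_swap
  · subst h2
    exact H.no_NT h3 h1 (fun w hw => by rw [← hun w hw, de_comm])
  · subst h2 h4
    refine H.no_TT h1 h3 ?_ (fun w hw => by rw [← hun w hw, de_comm])
    rintro rfl
    exact hne Sym2.eq_swap
  · subst h2 h4
    refine H.no_TT h1 h3 ?_ (fun w hw => by rw [de_comm, hun w hw, de_comm])
    rintro rfl
    exact hne rfl

end Fin2

/-- V2E: from vertices to edges -/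
theorem v2e [DecidableRel G.Adj] (B : Base G) (hres : VRes B) :
    ∃ A : Finset V, A.card + Fintype.card V ≤ G.edgeFinset.card + 1 ∧
      ∀ a b c d : V, G.Adj a b → G.Adj c d → s(a, b) ≠ s(c, d) →
        ∃ w ∈ B.S ∪ A, min (G.dist a w) (G.dist b w) ≠ min (G.dist c w) (G.dist d w) := by
  classical
  obtain ⟨Out, hO1, hO2, hO3, hO4, hO5⟩ := core B (ADart B) (fun a z h => h.choose_spec.1)
    (fun a z h => h.choose_spec.2.1) (by
      rintro a z ⟨y, -, -, -, -, -, s, hs, h1, h2⟩ ⟨y', -, -, -, -, -, s', hs', h3, h4⟩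
      rcases lt_trichotomy (B.idx s) (B.idx s') with h | h | h
      · have := h4 s hs h
        omega
      · have := B.idx_inj h
        subst this
        omega
      · have := h2 s' hs' h
        omega) (by
      rintro a z ⟨y, h1, h2, h3, h4, h5, -⟩ s hs hd
      refine ⟨y, ?_, ?_, ?_⟩
      · rw [← h4]
        exact (B.par_adj y h3).symm
      · rw [← h4]
        exact (B.L_par h3).symm
      · have := h5 s hs
        unfold de at this
        omega)
  obtain ⟨A, hA1, hA2, hA3⟩ := exists_A B Out hO1 hO2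
  have H : Fin2 B A Out := ⟨hA2, hA3, hO3, hO4, hO5, hres⟩
  refine ⟨A, hA1, ?_⟩
  intro a b c d hab hcd hne
  by_contra hcon
  push Not at hcon
  refine H.final hab hcd hne ?_
  intro w hw
  have := hcon w hw
  unfold de
  rw [SimpleGraph.dist_comm (u := w) (v := a), SimpleGraph.dist_comm (u := w) (v := b),
    SimpleGraph.dist_comm (u := w) (v := c), SimpleGraph.dist_comm (u := w) (v := d)]
  exact this

end Pool.Agent.H939R2.Edim
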